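import Pool.Agent.N589.LL.Defs

/-!
# Automorphic forms and representations of `GL_2` over `F_2(t)`, local components, liftings
-/

open scoped WithZero Polynomial MatrixGroups
open IsDedekindDomain RestrictedProduct

noncomputable section

namespace N589LL

/-! ## Representations -/

/-- The representation of a group `G` on all functions `G → ℂ` by right translation,
`(g f)(x) = f (x g)`. -/
def Rt (G : Type) [Group G] : Representation ℂ G (G → ℂ) where
  toFun g :=
    { toFun := fun f x => f (x * g)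
      map_add' := fun _ _ => rfl
      map_smul' := fun _ _ => rfl }
  map_one' := by ext f x; simp
  map_mul' a b := by ext f x; simp [mul_assoc]

section rep

variable {G : Type} [Group G] {E : Type} [AddCommGroup E] [Module ℂ E]

/-- A representation is irreducible: nonzero, and the only invariant subspaces are `0` and
everything. -/
def Irred (ρ : Representation ℂ G E) : Prop :=
  Nontrivial E ∧ ∀ W : Submodule ℂ E, (∀ g, ∀ x ∈ W, ρ g x ∈ W) → W = ⊥ ∨ W = ⊤

/-- The vectors fixed by a subgroup. -/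
def fixedBy (ρ : Representation ℂ G E) (H : Subgroup G) : Submodule ℂ E where
  carrier := {x | ∀ h ∈ H, ρ h x = x}
  zero_mem' := by intro h _; simp
  add_mem' := by intro a b ha hb h hh; rw [map_add, ha h hh, hb h hh]
  smul_mem' := by intro c a ha h hh; rw [map_smul, ha h hh]

/-- The subrepresentation generated by a vector. -/
def cyc (ρ : Representation ℂ G E) (x : E) : Submodule ℂ E :=
  Submodule.span ℂ (Set.range fun g => ρ g x)

variable [TopologicalSpace G]

/-- A representation of a topological group is smooth: the stabiliser of every vector is open. -/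
def Smooth (ρ : Representation ℂ G E) : Prop :=
  ∀ x, ∃ U : Subgroup G, IsOpen (U : Set G) ∧ x ∈ fixedBy ρ U

/-- The vector `x` is smooth and the subrepresentation generated by `x` is admissible: for every
open subgroup `H`, its space of `H`-fixed vectors is finite-dimensional. -/
def AdmVec (ρ : Representation ℂ G E) (x : E) : Prop :=
  (∃ U : Subgroup G, IsOpen (U : Set G) ∧ x ∈ fixedBy ρ U) ∧
  ∀ H : Subgroup G, IsOpen (H : Set G) → FiniteDimensional ℂ ↥(cyc ρ x ⊓ fixedBy ρ H)

end rep

/-- Irreducible smooth complex representations of a topological group. (Isomorphic representations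
are not identified.) -/
structure IrrRep (G : Type) [Group G] [TopologicalSpace G] where
  /-- the space -/
  E : Type
  [acg : AddCommGroup E]
  [mod : Module ℂ E]
  /-- the action -/
  ρ : Representation ℂ G E
  irr : Irred ρ
  smooth : Smooth ρ

attribute [instance] IrrRep.acg IrrRep.mod

/-! ## Automorphic forms and representations -/

/-- Automorphic forms on `GL_2(A_K)`, `K` the function field `F_2(t)` (Borel and Jacquet, Automorphic
forms and automorphic representations, 5.8): functions `f : GL_2(K)\GL_2(A_K) → ℂ`, invariant on the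
right under an open subgroup, such that for some place `v` the representation of `GL_2(K_v)` on
the span of the right translates of `f` under `GL_2(K_v)` is admissible. -/
structure IsAutForm (f : GA → ℂ) : Prop where
  left_inv : ∀ (γ : GL (Fin 2) K) (g : GA), f (diag γ * g) = f g
  smooth : ∃ U : Subgroup GA, IsOpen (U : Set GA) ∧ ∀ u ∈ U, ∀ g, f (g * u) = f g
  admissible : ∃ v : Place, AdmVec ((Rt GA).comp (sing v)) f

/-- The function `f` on `GL_2(K)\GL_2(A_K)` is cuspidal: `∫_{A/K} f(n(x) g) dx = 0` for all `g`.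
The function `x ↦ f(n(x) g)` on `A/K` is invariant under an open subgroup `𝔬` of `A`, so that the
integral is (up to a constant) the sum over the finite set `A/(K + 𝔬)`. -/
def IsCuspidal (f : GA → ℂ) : Prop :=
  ∀ (g : GA) (𝔬 : AddSubgroup Adele), IsOpen (𝔬 : Set Adele) →
    (∀ x, ∀ y ∈ 𝔬, f (nA (x + y) * g) = f (nA x * g)) →
    ∑ᶠ c : Adele ⧸ (𝔬 ⊔ diagK.range.toAddSubgroup), f (nA c.out * g) = 0

/-- `π` is isomorphic to an irreducible quotient of a representation `V` of `GL_2(A_K)`, where `V`
is a space of functions satisfying `P`, with `GL_2(A_K)` acting by right translation. -/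
def IsQuotientOfSpaceOf (P : (GA → ℂ) → Prop) (π : IrrRep GA) : Prop :=
  ∃ (V : Submodule ℂ (GA → ℂ)) (hV : ∀ g, ∀ f ∈ V, Rt GA g f ∈ V), (∀ f ∈ V, P f) ∧
    ∃ p : V →ₗ[ℂ] π.E, Function.Surjective p ∧
      ∀ (g : GA) (f : V), p ⟨Rt GA g f, hV g f f.2⟩ = π.ρ g (p f)

/-- Automorphic representations of `GL_2(A_K)`: the irreducible subquotients `V/W` of the space of
automorphic forms. -/
def IsAutRep (π : IrrRep GA) : Prop := IsQuotientOfSpaceOf IsAutForm π

/-- Cuspidal automorphic representations of `GL_2(A_K)`. -/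
def IsCuspRep (π : IrrRep GA) : Prop :=
  IsQuotientOfSpaceOf (fun f => IsAutForm f ∧ IsCuspidal f) π

/-- The irreducible representation `τ` of `GL_2(K_v)` is the component at `v` of the irreducible
representation `π = ⊗ π_v` of `GL_2(A_K)`: it occurs in the restriction of `π` to `GL_2(K_v)`
(this restriction is a direct sum of copies of `π_v`). -/
def IsComp (π : IrrRep GA) (v : Place) (τ : IrrRep (Gv v)) : Prop :=
  ∃ j : τ.E →ₗ[ℂ] π.E, Function.Injective j ∧ ∀ g x, j (τ.ρ g x) = π.ρ (sing v g) (j x)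

/-- `τ` is unramified: it has a nonzero vector fixed by `GL_2(O_v)`. -/
def IsUnram {v : Place} (τ : IrrRep (Gv v)) : Prop := ∃ x, x ≠ 0 ∧ x ∈ fixedBy τ.ρ (Cv v)

/-! ## Isobaric automorphic representations -/

/-- The embedding `K_v^× → A_K^×` at the place `v`. -/
def singI (v : Place) : (Kv v)ˣ →* Idele := by
  classical
  exact
  { toFun := fun g => RestrictedProduct.mulSingle Uv v g
    map_one' := RestrictedProduct.mulSingle_one ..
    map_mul' := fun x y => RestrictedProduct.mulSingle_mul .. }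

/-- Hecke quasi-characters: continuous homomorphisms `χ : A_K^× → ℂ^×` trivial on `K^×`, together
with the exponent `σ`, for which `|χ(x)| = |x|^σ`. -/
structure HeckeChar where
  /-- the character -/
  χ : Idele →* ℂˣ
  continuous : Continuous χ
  trivial : ∀ (x : Kˣ) (y : Idele), (∀ v, (y v : Kv v) = incl v x) → χ y = 1
  /-- the exponent -/
  σ : ℝ
  norm_eq : ∀ (v : Place) (x : (Kv v)ˣ), ‖(χ (singI v x) : ℂ)‖ = nrm v x ^ σ

/-- The upper triangular matrix `(a, b; 0, d)`. -/
def bor {R : Type} [CommRing R] (a d : Rˣ) (b : R) : GL (Fin 2) R where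
  val := !![(a : R), b; 0, (d : R)]
  inv := !![(↑a⁻¹ : R), -(↑a⁻¹ : R) * b * (↑d⁻¹ : R); 0, (↑d⁻¹ : R)]
  val_inv := by
    ext i j; fin_cases i <;> fin_cases j <;> simp [Matrix.mul_apply, Fin.sum_univ_two, mul_assoc]
  inv_val := by
    ext i j; fin_cases i <;> fin_cases j <;> simp [Matrix.mul_apply, Fin.sum_univ_two, mul_assoc]

/-- The (normalised) principal series `Ind(μ₁, μ₂)` of `GL_2(K_v)`: functions `φ` on `GL_2(K_v)`,
right-invariant under an open subgroup, with
`φ((a, b; 0, d) g) = μ₁(a) μ₂(d) |a/d|^{1/2} φ(g)`. -/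
def PS {v : Place} (μ₁ μ₂ : (Kv v)ˣ →* ℂˣ) : Submodule ℂ (Gv v → ℂ) where
  carrier := {φ | (∃ U : Subgroup (Gv v), IsOpen (U : Set (Gv v)) ∧
      ∀ u ∈ U, ∀ g, φ (g * u) = φ g) ∧
    ∀ (a d : (Kv v)ˣ) (b : Kv v) (g : Gv v),
      φ (bor a d b * g) = μ₁ a * μ₂ d * ((nrm v a / nrm v d) ^ (1 / 2 : ℝ) : ℝ) * φ g}
  zero_mem' := ⟨⟨⊤, isOpen_univ, fun _ _ _ => rfl⟩, fun _ _ _ _ => by simp⟩
  add_mem' := by
    rintro x y ⟨⟨U, hU, hx⟩, hx'⟩ ⟨⟨V, hV, hy⟩, hy'⟩
    refine ⟨⟨U ⊓ V, hU.inter hV, fun u hu g => ?_⟩, fun a d b g => ?_⟩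
    · rw [Pi.add_apply, Pi.add_apply, hx u hu.1, hy u hu.2]
    · rw [Pi.add_apply, Pi.add_apply, hx', hy', mul_add]
  smul_mem' := by
    rintro c x ⟨⟨U, hU, hx⟩, hx'⟩
    refine ⟨⟨U, hU, fun u hu g => ?_⟩, fun a d b g => ?_⟩
    · rw [Pi.smul_apply, Pi.smul_apply, hx u hu]
    · rw [Pi.smul_apply, Pi.smul_apply, hx', smul_eq_mul, smul_eq_mul]; ring

/-- `τ` is isomorphic to an irreducible quotient of the principal series `Ind(μ₁, μ₂)`: there is a
surjective linear map `p` from `Ind(μ₁, μ₂)` to `τ` with `p(g φ) = g p(φ)`, where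
`(g φ)(x) = φ(x g)`. -/
def IsQuotPS {v : Place} (μ₁ μ₂ : (Kv v)ˣ →* ℂˣ) (τ : IrrRep (Gv v)) : Prop :=
  ∃ p : PS μ₁ μ₂ →ₗ[ℂ] τ.E, Function.Surjective p ∧
    ∀ (g : Gv v) (φ ψ : PS μ₁ μ₂), (∀ x, ψ.1 x = φ.1 (x * g)) → p ψ = τ.ρ g (p φ)

/-- Isobaric automorphic representations `Π` of `GL_2(A_K)`: either `Π` is cuspidal, or
`Π = χ₁ ⊞ χ₂` for two Hecke quasi-characters; ordering them such that `σ₁ ≥ σ₂` for the exponents,
`Π_v` is the Langlands quotient of `Ind(χ₁ᵥ, χ₂ᵥ)` (its unique irreducible quotient) for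
all `v`. -/
def IsIsobaric (P : IrrRep GA) : Prop :=
  IsAutRep P ∧ (IsCuspRep P ∨ ∃ c₁ c₂ : HeckeChar, c₂.σ ≤ c₁.σ ∧
    ∀ (v : Place) (τ : IrrRep (Gv v)), IsComp P v τ →
      IsQuotPS (c₁.χ.comp (singI v)) (c₂.χ.comp (singI v)) τ)

/-- `P` is a global lifting of the automorphic representation `π` of `GL_2(A_K)`, for the identity
representation `ρ` of the dual group `GL_2(ℂ)` (so that the unramified lifting `l_{ρ,un}` is the
identity): `P` is isobaric and `P_v = π_v` at every place where `π_v` is unramified. -/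
def IsLifting (π P : IrrRep GA) : Prop :=
  IsIsobaric P ∧ ∀ (v : Place) (τ : IrrRep (Gv v)), IsUnram τ → IsComp π v τ → IsComp P v τ

/-- The property in question Q1, for `F = K_∞ = F_2((1/t))`, `G = GL_2`, `ρ` the identity, and the
map `l` on irreducible smooth representations of `GL_2(F)`, restricted to the global situation
`K = F_2(t)`, `𝔭 = ∞`, `G' = GL_2`: for every automorphic representation `π` of `GL_2(A_K)` and its
global lifting `P`, the component of `P` at `∞` is `l` of the component of `π` at `∞`. -/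
def Predicts (l : IrrRep (Gv none) → IrrRep (Gv none)) : Prop :=
  ∀ π P : IrrRep GA, IsAutRep π → IsLifting π P →
    ∀ τ : IrrRep (Gv none), IsComp π none τ → IsComp P none (l τ)

/-- The final statement. -/
def Goal : Prop := ¬ ∃ l : IrrRep (Gv none) → IrrRep (Gv none), Predicts l

end N589LL
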