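import Mathlib

/-!
# Definitions for MP_5ae62c_nt (local liftings compatible with global liftings)

Global field `K = F_2(t)`, all its places, the completions `K_v`, the adele ring, the group
`GL_2(A_K)`, automorphic forms and representations (Borel and Jacquet), cuspidal and isobaric
automorphic representations of `GL_2`, local components, global liftings for the identity
representation `ρ : GL_2(ℂ) → GL_2(ℂ)`.
-/

open scoped WithZero Polynomial MatrixGroups
open IsDedekindDomain RestrictedProduct

noncomputable section

namespace N589LL

/-! ## The global field `F_2(t)`, its places and completions -/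

/-- The ring `F_2[t]`. -/
abbrev A : Type := Polynomial (ZMod 2)

/-- The global field `K = F_2(t)`. -/
abbrev K : Type := RatFunc (ZMod 2)

instance : Fact (Nat.Prime 2) := ⟨Nat.prime_two⟩

/-- The places of `K = F_2(t)`: `none` is the place `∞` (degree), and `some v` is the place of the
nonzero prime ideal `v` of `F_2[t]`. (Every nontrivial valuation of `K` is equivalent to one of
them: `Mathlib.NumberTheory.RatFunc.Ostrowski`.) -/
abbrev Place : Type := Option (HeightOneSpectrum A)

/-- The (multiplicatively written) normalized discrete valuation of `K` at a place. -/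
def pv : Place → Valuation K ℤᵐ⁰
  | none => by classical exact RatFunc.inftyValuation (ZMod 2)
  | some v => v.valuation K

/-- The completion `K_v`. -/
abbrev Kv (v : Place) : Type := (pv v).Completion

/-- The embedding `K → K_v`. -/
def incl (v : Place) : K →+* Kv v :=
  (UniformSpace.Completion.coeRingHom).comp (WithVal.equiv (pv v)).symm.toRingHom

/-- The valuation of `K_v` (with values in `ℤᵐ⁰`, normalised). -/
def val (v : Place) : Valuation (Kv v) ℤᵐ⁰ := Valued.v

lemma val_incl (v : Place) (x : K) : val v (incl v x) = pv v x := by
  have : incl v x = ((WithVal.toVal (pv v) x : WithVal (pv v)) : Kv v) := rfl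
  rw [this, val, Valued.valuedCompletion_apply]
  rfl

/-- The number of elements of the residue field of the place `v`. -/
def qv : Place → ℕ
  | none => 2
  | some v => Nat.card (A ⧸ v.asIdeal)

/-- The normalised absolute value of a nonzero element of `K_v`. -/
def nrm (v : Place) (x : (Kv v)ˣ) : ℝ := (qv v : ℝ) ^ (WithZero.log (val v (x : Kv v)))

/-- The ring of integers `O_v` of `K_v`. -/
def Ov (v : Place) : Subring (Kv v) := (val v).integer

lemma mem_Ov {v : Place} {x : Kv v} : x ∈ Ov v ↔ val v x ≤ 1 := Iff.rfl

/-- The group of units `O_v^×`, as a subgroup of `K_v^×`. -/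
def Uv (v : Place) : Subgroup (Kv v)ˣ where
  carrier := {x | val v (x : Kv v) = 1}
  mul_mem' := by
    intro a b ha hb
    simp only [Set.mem_ofPred_eq, Units.val_mul, map_mul] at *
    rw [ha, hb, one_mul]
  one_mem' := by simp
  inv_mem' := by
    intro a ha
    simp only [Set.mem_ofPred_eq, Units.val_inv_eq_inv_val, map_inv₀] at *
    rw [ha, inv_one]

/-! ## `GL_2` over the completions and over the adeles -/

/-- For a field `F` with a valuation `v`: the subgroup `GL_2(O)` of `GL_2(F)`, `O` the valuation ring
(matrices `g` such that `g` and `g⁻¹` have entries in `O`). -/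
def glInt {F : Type} [Field F] (v : Valuation F ℤᵐ⁰) : Subgroup (GL (Fin 2) F) where
  carrier := {g | (∀ i j, v (g.val i j) ≤ 1) ∧ (∀ i j, v (g⁻¹.val i j) ≤ 1)}
  mul_mem' := by
    rintro a b ⟨ha, ha'⟩ ⟨hb, hb'⟩
    refine ⟨fun i j => ?_, fun i j => ?_⟩
    · rw [Units.val_mul, Matrix.mul_apply]
      exact Subring.sum_mem v.integer fun k _ => Subring.mul_mem v.integer (ha i k) (hb k j)
    · rw [mul_inv_rev, Units.val_mul, Matrix.mul_apply]
      exact Subring.sum_mem v.integer fun k _ => Subring.mul_mem v.integer (hb' i k) (ha' k j)
  one_mem' := by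
    constructor <;> intro i j
    · rw [Units.val_one, Matrix.one_apply]; split_ifs <;> simp
    · rw [inv_one, Units.val_one, Matrix.one_apply]; split_ifs <;> simp
  inv_mem' := by
    rintro a ⟨ha, ha'⟩
    exact ⟨ha', by simpa using ha⟩

/-- The group `GL_2(K_v)`, a topological group (units of the topological ring of matrices). -/
abbrev Gv (v : Place) : Type := GL (Fin 2) (Kv v)

/-- The maximal compact subgroup `GL_2(O_v)` of `GL_2(K_v)`. -/
def Cv (v : Place) : Subgroup (Gv v) := glInt (val v)

/-- The adelic group `GL_2(A_K)`: the restricted product of the groups `GL_2(K_v)` with respect to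
the subgroups `GL_2(O_v)`, over all places `v`. -/
abbrev GA : Type := Πʳ v : Place, [Gv v, Cv v]

/-- The adele ring `A_K`: the restricted product of the fields `K_v` with respect to `O_v`. -/
abbrev Adele : Type := Πʳ v : Place, [Kv v, Ov v]

/-- The idele group: the restricted product of the groups `K_v^×` with respect to `O_v^×`. -/
abbrev Idele : Type := Πʳ v : Place, [(Kv v)ˣ, Uv v]

lemma finite_not_integral (x : K) : {v : Place | incl v x ∉ Ov v}.Finite := by
  have h := HeightOneSpectrum.Support.finite A x
  refine ((h.image some).union (Set.finite_singleton none)).subset ?_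
  rintro (_ | v) hv
  · exact Or.inr rfl
  · refine Or.inl ⟨v, ?_, rfl⟩
    simpa [HeightOneSpectrum.Support, Ov, Valuation.mem_integer_iff, val_incl, pv] using hv

/-- The diagonal embedding `K → A_K`. -/
def diagK : K →+* Adele where
  toFun x := ⟨fun v => incl v x, by simpa using finite_not_integral x⟩
  map_one' := by ext v; simp
  map_mul' x y := by ext v; simp
  map_zero' := by ext v; simp
  map_add' x y := by ext v; simp

@[simp] lemma diagK_apply (x : K) (v : Place) : diagK x v = incl v x := rfl

/-- The map `GL_2(K) → GL_2(K_v)`. -/
abbrev glIncl (v : Place) : GL (Fin 2) K →* Gv v := Matrix.GeneralLinearGroup.map (incl v)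

lemma finite_glIncl (γ : GL (Fin 2) K) : {v : Place | glIncl v γ ∉ Cv v}.Finite := by
  have h : ∀ i j, ({v : Place | incl v (γ.val i j) ∉ Ov v} ∪
      {v : Place | incl v (γ⁻¹.val i j) ∉ Ov v}).Finite := fun i j =>
    (finite_not_integral _).union (finite_not_integral _)
  refine (Set.finite_iUnion fun i => Set.finite_iUnion fun j => h i j).subset ?_
  intro v hv
  simp only [Set.mem_iUnion]
  by_contra hcon
  push Not at hcon
  apply hv
  refine ⟨fun i j => ?_, fun i j => ?_⟩
  · have := hcon i j
    simp only [Set.mem_union, Set.mem_ofPred_eq, not_or, not_not] at this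
    exact this.1
  · have := hcon i j
    simp only [Set.mem_union, Set.mem_ofPred_eq, not_or, not_not] at this
    rw [← map_inv]
    exact this.2

/-- The diagonal embedding `GL_2(K) → GL_2(A_K)`. -/
def diag : GL (Fin 2) K →* GA where
  toFun γ := ⟨fun v => glIncl v γ, by simpa using finite_glIncl γ⟩
  map_one' := by ext v; simp
  map_mul' x y := by ext v; simp

@[simp] lemma diag_apply (γ : GL (Fin 2) K) (v : Place) : diag γ v = glIncl v γ := rfl

/-- The embedding `GL_2(K_v) → GL_2(A_K)` at the place `v`. -/
def sing (v : Place) : Gv v →* GA := by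
  classical
  exact
  { toFun := fun g => RestrictedProduct.mulSingle Cv v g
    map_one' := RestrictedProduct.mulSingle_one ..
    map_mul' := fun x y => RestrictedProduct.mulSingle_mul .. }

/-- The unipotent matrix `(1, x; 0, 1)`. -/
def upr {R : Type} [CommRing R] (x : R) : GL (Fin 2) R where
  val := !![1, x; 0, 1]
  inv := !![1, -x; 0, 1]
  val_inv := by simp [Matrix.one_fin_two]
  inv_val := by simp [Matrix.one_fin_two]

/-- The unipotent element `n(x) = (1, x; 0, 1)` of `GL_2(A_K)`, for an adele `x`. -/
def nA (x : Adele) : GA := ⟨fun v => upr (x v), by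
  filter_upwards [x.2] with v hv
  refine ⟨fun i j => ?_, fun i j => ?_⟩
  · fin_cases i <;> fin_cases j
    exacts [Subring.one_mem (Ov v), hv, Subring.zero_mem (Ov v), Subring.one_mem (Ov v)]
  · fin_cases i <;> fin_cases j
    exacts [Subring.one_mem (Ov v), Subring.neg_mem (Ov v) hv, Subring.zero_mem (Ov v),
      Subring.one_mem (Ov v)]⟩

end N589LL
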