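import Pool.Agent.N589.LL.Aut

/-!
# Local definitions: `GL_2(F)` for a valued field `F`, the Steinberg representation

Here `F` is a field with a valuation `v : Valuation F ℤᵐ⁰` (no topology is used).
-/

open scoped WithZero MatrixGroups
open OnePoint

noncomputable section

namespace N589LL

section matrices

variable {F : Type} [Field F]

/-- `w = (0, 1; 1, 0)`. -/
def wm : GL (Fin 2) F where
  val := !![0, 1; 1, 0]
  inv := !![0, 1; 1, 0]
  val_inv := by simp [Matrix.one_fin_two]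
  inv_val := by simp [Matrix.one_fin_two]

/-- `(1, 0; x, 1)`. -/
def lwr (x : F) : GL (Fin 2) F where
  val := !![1, 0; x, 1]
  inv := !![1, 0; -x, 1]
  val_inv := by simp [Matrix.one_fin_two]
  inv_val := by simp [Matrix.one_fin_two]

/-- `η = (0, 1; ϖ, 0)`. -/
def eta (ϖ : Fˣ) : GL (Fin 2) F where
  val := !![0, 1; (ϖ : F), 0]
  inv := !![0, (↑ϖ⁻¹ : F); 1, 0]
  val_inv := by simp [Matrix.one_fin_two]
  inv_val := by simp [Matrix.one_fin_two]

/-- The scalar matrix `z`. -/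
def sca (z : Fˣ) : GL (Fin 2) F := bor z z 0

/-- The diagonal matrix `diag(a, d)`. -/
def dg (a d : Fˣ) : GL (Fin 2) F := bor a d 0

end matrices

section val

variable {F : Type} [Field F] (v : Valuation F ℤᵐ⁰)

/-- The Iwahori subgroup: matrices in `GL_2(O)` which are upper triangular modulo the maximal ideal. -/
def Iw : Subgroup (GL (Fin 2) F) where
  carrier := {g | g ∈ glInt v ∧ v (g.val 1 0) < 1}
  mul_mem' := by
    rintro a b ⟨ha, ha'⟩ ⟨hb, hb'⟩
    refine ⟨mul_mem ha hb, ?_⟩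
    rw [Units.val_mul, Matrix.mul_apply, Fin.sum_univ_two]
    refine lt_of_le_of_lt (v.map_add _ _) (max_lt ?_ ?_)
    · rw [map_mul]
      exact lt_of_le_of_lt (mul_le_of_le_one_right' (hb.1 0 0)) ha'
    · rw [map_mul]
      exact lt_of_le_of_lt (mul_le_of_le_one_left' (ha.1 1 1)) hb'
  one_mem' := ⟨one_mem _, by simp⟩
  inv_mem' := by
    rintro a ⟨ha, ha'⟩
    refine ⟨inv_mem ha, ?_⟩
    have e : a⁻¹.val * a.val = 1 := a.inv_mul
    have e1 := congrFun (congrFun e 1) 0
    have e4 := congrFun (congrFun e 0) 0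
    simp only [Matrix.mul_apply, Fin.sum_univ_two, Matrix.one_apply] at e1 e4
    simp only [Fin.isValue, one_ne_zero, ↓reduceIte] at e1 e4
    have h1 : a⁻¹.val 1 0 =
        (a⁻¹.val 1 0 * a⁻¹.val 0 1 - a⁻¹.val 0 0 * a⁻¹.val 1 1) * a.val 1 0 := by
      linear_combination (a⁻¹.val 0 0) * e1 - (a⁻¹.val 1 0) * e4
    rw [h1, map_mul]
    refine lt_of_le_of_lt (mul_le_of_le_one_left' ?_) ha'
    refine (v.map_sub _ _).trans (max_le ?_ ?_)
    · rw [map_mul]; exact mul_le_one' (ha.2 1 0) (ha.2 0 1)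
    · rw [map_mul]; exact mul_le_one' (ha.2 0 0) (ha.2 1 1)

/-- The principal congruence subgroup of level `m`. -/
def Km (m : ℕ) : Subgroup (GL (Fin 2) F) where
  carrier := {g | g ∈ glInt v ∧ ∀ i j, v ((g.val - 1) i j) ≤ WithZero.exp (-(m : ℤ))}
  mul_mem' := by
    rintro a b ⟨ha, ha'⟩ ⟨hb, hb'⟩
    refine ⟨mul_mem ha hb, fun i j => ?_⟩
    have e : (a * b).val - 1 = (a.val - 1) * b.val + (b.val - 1) := by
      rw [Units.val_mul, sub_mul, one_mul]; abel
    rw [e, Matrix.add_apply, Matrix.mul_apply, Fin.sum_univ_two]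
    refine (v.map_add _ _).trans (max_le ((v.map_add _ _).trans (max_le ?_ ?_)) (hb' i j))
    · rw [map_mul]
      exact mul_le_of_le_of_le_one (ha' i 0) (hb.1 0 j)
    · rw [map_mul]
      exact mul_le_of_le_of_le_one (ha' i 1) (hb.1 1 j)
  one_mem' := ⟨one_mem _, by intro i j; simp⟩
  inv_mem' := by
    rintro a ⟨ha, ha'⟩
    refine ⟨inv_mem ha, fun i j => ?_⟩
    have e : a⁻¹.val - 1 = - ((a.val - 1) * a⁻¹.val) := by
      rw [sub_mul, one_mul, a.mul_inv]; abel
    rw [e, Matrix.neg_apply, Valuation.map_neg, Matrix.mul_apply, Fin.sum_univ_two]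
    refine (v.map_add _ _).trans (max_le ?_ ?_)
    · rw [map_mul]
      exact mul_le_of_le_of_le_one (ha' i 0) (ha.2 0 j)
    · rw [map_mul]
      exact mul_le_of_le_of_le_one (ha' i 1) (ha.2 1 j)

/-- A *special vector* `x` in a representation of `GL_2(F)` (residue field with two elements, `ϖ` a
uniformizer): fixed by the Iwahori subgroup and by the scalars, `η x = - x`, and the sum of its
translates under `GL_2(O)/I = {1, w, (1,0;1,1)}` is zero. -/
structure Special {E : Type} [AddCommGroup E] [Module ℂ E] (ρ : Representation ℂ (GL (Fin 2) F) E)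
    (ϖ : Fˣ) (x : E) : Prop where
  iw : ∀ g ∈ Iw v, ρ g x = x
  sca : ∀ z : Fˣ, ρ (sca z) x = x
  eta : ρ (eta ϖ) x = -x
  sum : x + ρ wm x + ρ (lwr 1) x = 0

/-! ## The Steinberg representation -/

/-- The representation of `GL_2(F)` on all functions on `ℙ¹(F) = F ∪ {∞}`:
`(g φ)(x) = φ(g⁻¹ x)`. -/
def P1rep (F : Type) [Field F] : Representation ℂ (GL (Fin 2) F) (OnePoint F → ℂ) := by
  classical
  exact
  { toFun := fun g =>
      { toFun := fun φ x => φ (g⁻¹ • x)
        map_add' := fun _ _ => rfl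
        map_smul' := fun _ _ => rfl }
    map_one' := by ext φ x; simp
    map_mul' := fun a b => by ext φ x; simp [mul_smul] }

/-- The smooth functions on `ℙ¹(F)`. -/
def P1smooth : Submodule ℂ (OnePoint F → ℂ) where
  carrier := {φ | ∃ m : ℕ, ∀ k ∈ Km v m, P1rep F k φ = φ}
  zero_mem' := ⟨0, fun k _ => by simp⟩
  add_mem' := by
    rintro a b ⟨m, hm⟩ ⟨n, hn⟩
    refine ⟨max m n, fun k hk => ?_⟩
    have h1 : k ∈ Km v m := ⟨hk.1, fun i j => (hk.2 i j).trans (by
      rw [WithZero.exp_le_exp]; simp)⟩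
    have h2 : k ∈ Km v n := ⟨hk.1, fun i j => (hk.2 i j).trans (by
      rw [WithZero.exp_le_exp]; simp)⟩
    rw [map_add, hm k h1, hn k h2]
  smul_mem' := by
    rintro c a ⟨m, hm⟩
    exact ⟨m, fun k hk => by rw [_root_.map_smul, hm k hk]⟩

lemma exists_exp_bound (x : F) : ∃ N : ℕ, v x ≤ WithZero.exp (N : ℤ) := by
  by_cases hx : v x = 0
  · exact ⟨0, by simp [hx]⟩
  · refine ⟨(WithZero.log (v x)).toNat, ?_⟩
    rw [← WithZero.log_le_iff_le_exp hx]
    exact Int.self_le_toNat _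

lemma exists_exp_bound_gl (g : GL (Fin 2) F) : ∃ N : ℕ,
    (∀ i j, v (g.val i j) ≤ WithZero.exp (N : ℤ)) ∧
      (∀ i j, v (g⁻¹.val i j) ≤ WithZero.exp (N : ℤ)) := by
  choose f hf using fun i j => exists_exp_bound v (g.val i j)
  choose f' hf' using fun i j => exists_exp_bound v (g⁻¹.val i j)
  refine ⟨∑ i, ∑ j, (f i j + f' i j), fun i j => ?_, fun i j => ?_⟩
  · refine (hf i j).trans ?_
    rw [WithZero.exp_le_exp, Nat.cast_le]
    have h1 : f i j + f' i j ≤ ∑ j, (f i j + f' i j) :=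
      Finset.single_le_sum (f := fun j => f i j + f' i j) (fun _ _ => Nat.zero_le _)
        (Finset.mem_univ j)
    have h2 : ∑ j, (f i j + f' i j) ≤ ∑ i, ∑ j, (f i j + f' i j) :=
      Finset.single_le_sum (f := fun i => ∑ j, (f i j + f' i j)) (fun _ _ => Nat.zero_le _)
        (Finset.mem_univ i)
    omega
  · refine (hf' i j).trans ?_
    rw [WithZero.exp_le_exp, Nat.cast_le]
    have h1 : f i j + f' i j ≤ ∑ j, (f i j + f' i j) :=
      Finset.single_le_sum (f := fun j => f i j + f' i j) (fun _ _ => Nat.zero_le _)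
        (Finset.mem_univ j)
    have h2 : ∑ j, (f i j + f' i j) ≤ ∑ i, ∑ j, (f i j + f' i j) :=
      Finset.single_le_sum (f := fun i => ∑ j, (f i j + f' i j)) (fun _ _ => Nat.zero_le _)
        (Finset.mem_univ i)
    omega

/-- Every conjugate of `Km m` contains some `Km m'`. -/
lemma Km_conj (g : GL (Fin 2) F) (m : ℕ) :
    ∃ m' : ℕ, ∀ k ∈ Km v m', g⁻¹ * k * g ∈ Km v m := by
  obtain ⟨N, hN, hN'⟩ := exists_exp_bound_gl v g
  have key : ∀ X : Matrix (Fin 2) (Fin 2) F,
      (∀ i j, v (X i j) ≤ WithZero.exp (-((m + 2 * N : ℕ) : ℤ))) →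
      ∀ i j, v ((g⁻¹.val * X * g.val) i j) ≤ WithZero.exp (-(m : ℤ)) := by
    intro X hX i j
    have e : WithZero.exp (-(m : ℤ)) = WithZero.exp (N : ℤ) *
        WithZero.exp (-((m + 2 * N : ℕ) : ℤ)) * WithZero.exp (N : ℤ) := by
      rw [← WithZero.exp_add, ← WithZero.exp_add]; congr 1; push_cast; ring
    simp only [Matrix.mul_apply, Fin.sum_univ_two]
    rw [e]
    refine (v.map_add _ _).trans (max_le ?_ ?_)
    · rw [map_mul]
      refine mul_le_mul' ?_ (hN _ _)
      refine (v.map_add _ _).trans (max_le ?_ ?_) <;> rw [map_mul] <;>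
        exact mul_le_mul' (hN' _ _) (hX _ _)
    · rw [map_mul]
      refine mul_le_mul' ?_ (hN _ _)
      refine (v.map_add _ _).trans (max_le ?_ ?_) <;> rw [map_mul] <;>
        exact mul_le_mul' (hN' _ _) (hX _ _)
  have key2 : ∀ k : GL (Fin 2) F, k ∈ Km v (m + 2 * N) →
      ∀ i j, v (((g⁻¹ * k * g).val - 1) i j) ≤ WithZero.exp (-(m : ℤ)) := by
    intro k hk i j
    have e : (g⁻¹ * k * g).val - 1 = g⁻¹.val * (k.val - 1) * g.val := by
      rw [Units.val_mul, Units.val_mul, mul_sub, sub_mul, mul_one, g.inv_mul]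
    rw [e]
    exact key _ hk.2 i j
  have key3 : ∀ X : Matrix (Fin 2) (Fin 2) F,
      (∀ i j, v ((X - 1) i j) ≤ WithZero.exp (-(m : ℤ))) → ∀ i j, v (X i j) ≤ 1 := by
    intro X hX i j
    have e : X i j = (X - 1) i j + (1 : Matrix (Fin 2) (Fin 2) F) i j := by
      rw [Matrix.sub_apply]; ring
    rw [e]
    refine (v.map_add _ _).trans (max_le ((hX i j).trans ?_) ?_)
    · rw [← WithZero.exp_zero, WithZero.exp_le_exp]; omega
    · rw [Matrix.one_apply]; split_ifs <;> simp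
  refine ⟨m + 2 * N, fun k hk => ⟨⟨key3 _ (key2 k hk), ?_⟩, key2 k hk⟩⟩
  have e : (g⁻¹ * k * g)⁻¹ = g⁻¹ * k⁻¹ * g := by group
  rw [e]
  exact key3 _ (key2 _ (inv_mem hk))

lemma P1smooth_stable (g : GL (Fin 2) F) {φ : OnePoint F → ℂ} (h : φ ∈ P1smooth v) :
    P1rep F g φ ∈ P1smooth v := by
  obtain ⟨m, hm⟩ := h
  obtain ⟨m', hm'⟩ := Km_conj v g m
  refine ⟨m', fun k hk => ?_⟩
  have e : P1rep F k (P1rep F g φ) = P1rep F g (P1rep F (g⁻¹ * k * g) φ) := by
    rw [← Module.End.mul_apply, ← Module.End.mul_apply, ← map_mul, ← map_mul]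
    congr 2
    group
  rw [e, hm _ (hm' k hk)]

/-- The representation on smooth functions on `ℙ¹(F)`. -/
def P1smRep : Representation ℂ (GL (Fin 2) F) (P1smooth v) where
  toFun g := (P1rep F g).restrict fun _ h => P1smooth_stable v g h
  map_one' := by ext φ x; simp [LinearMap.restrict_apply]
  map_mul' a b := by ext φ x; simp [LinearMap.restrict_apply]

/-- The constant functions. -/
def P1const : Submodule ℂ (P1smooth v) where
  carrier := {φ | ∃ c : ℂ, ∀ x, φ.1 x = c}
  zero_mem' := ⟨0, fun _ => rfl⟩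
  add_mem' := by
    rintro a b ⟨c, hc⟩ ⟨d, hd⟩
    exact ⟨c + d, fun x => by rw [Submodule.coe_add, Pi.add_apply, hc, hd]⟩
  smul_mem' := by
    rintro c a ⟨d, hd⟩
    exact ⟨c * d, fun x => by rw [Submodule.coe_smul, Pi.smul_apply, hd, smul_eq_mul]⟩

/-- The space of the Steinberg representation of `GL_2(F)`: smooth functions on `ℙ¹(F)` modulo
constants. -/
abbrev StE : Type := P1smooth v ⧸ P1const v

/-- The Steinberg representation of `GL_2(F)`. -/
def StRep : Representation ℂ (GL (Fin 2) F) (StE v) :=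
  (P1smRep v).quotient (P1const v) (by
    rintro g φ ⟨c, hc⟩
    exact ⟨c, fun x => hc _⟩)

/-- The unit ball `O ⊆ F ⊆ ℙ¹(F)`, as a set. -/
def ballO : Set (OnePoint F) := {x | ∃ y : F, x = (y : OnePoint F) ∧ v y ≤ 1}

lemma Iw_diag {g : GL (Fin 2) F} (hg : g ∈ Iw v) : v (g.val 0 0) = 1 ∧ v (g.val 1 1) = 1 := by
  obtain ⟨⟨h, h'⟩, hc⟩ := hg
  have hc' : v (g⁻¹.val 1 0) < 1 := (inv_mem (show g ∈ Iw v from ⟨⟨h, h'⟩, hc⟩)).2
  have e : g⁻¹.val * g.val = 1 := g.inv_mul
  have e0 := congrFun (congrFun e 0) 0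
  have e1 := congrFun (congrFun e 1) 1
  simp only [Matrix.mul_apply, Fin.sum_univ_two, Matrix.one_apply] at e0 e1
  simp only [Fin.isValue, ↓reduceIte] at e0 e1
  have key : ∀ a b c : F, v a ≤ 1 → v b ≤ 1 → v c < 1 → b * a + c = 1 → v a = 1 := by
    intro a b c ha hb hc h
    have h1 : v (b * a) = 1 := by
      have : b * a = 1 - c := by rw [← h]; ring
      rw [this]
      have h2 : v c < v (1 : F) := by rwa [map_one]
      rw [Valuation.map_sub_eq_of_lt_left v h2, map_one]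
    rw [map_mul] at h1
    refine le_antisymm ha ?_
    rw [← h1]
    exact mul_le_of_le_one_left' hb
  constructor
  · refine key _ _ _ (h 0 0) (h' 0 0) ?_ e0
    rw [map_mul]
    exact lt_of_le_of_lt (mul_le_of_le_one_left' (h' 0 1)) hc
  · refine key (g.val 1 1) (g⁻¹.val 1 1) (g⁻¹.val 1 0 * g.val 0 1) (h 1 1) (h' 1 1) ?_ ?_
    · rw [map_mul]
      exact lt_of_le_of_lt (mul_le_of_le_one_right' (h 0 1)) hc'
    · rw [← e1]; ring

lemma Iw_smul_ball [DecidableEq F] {g : GL (Fin 2) F} (hg : g ∈ Iw v) {x : OnePoint F}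
    (hx : x ∈ ballO v) : g • x ∈ ballO v := by
  obtain ⟨y, rfl, hy⟩ := hx
  obtain ⟨ha, hd⟩ := Iw_diag v hg
  obtain ⟨⟨h, h'⟩, hc⟩ := hg
  have hden : v (g.val 1 0 * y + g.val 1 1) = 1 := by
    have h2 : v (g.val 1 0 * y) < v (g.val 1 1) := by
      rw [hd, map_mul]
      exact lt_of_le_of_lt (mul_le_of_le_one_right' hy) hc
    rw [Valuation.map_add_eq_of_lt_right v h2, hd]
  have hne : g.val 1 0 * y + g.val 1 1 ≠ 0 := by
    intro h0; rw [h0] at hden; simp at hden
  refine ⟨(g.val 0 0 * y + g.val 0 1) / (g.val 1 0 * y + g.val 1 1), ?_, ?_⟩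
  · rw [smul_some_eq_ite, if_neg hne]
  · rw [map_div₀, hden, div_one]
    refine (v.map_add _ _).trans (max_le ?_ (h 0 1))
    rw [map_mul]
    exact mul_le_one' (h 0 0) hy

lemma Km_one_le_Iw : Km v 1 ≤ Iw v := by
  intro g hg
  refine ⟨hg.1, ?_⟩
  have := hg.2 1 0
  simp only [Matrix.sub_apply, Matrix.one_apply, Fin.isValue, one_ne_zero, ↓reduceIte,
    sub_zero] at this
  refine lt_of_le_of_lt this ?_
  rw [← WithZero.exp_zero, WithZero.exp_lt_exp]; norm_num

open Classical in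
/-- The indicator function of `O ⊆ ℙ¹(F)`. -/
def indO : OnePoint F → ℂ := fun x => if x ∈ ballO v then 1 else 0

lemma Iw_indO {g : GL (Fin 2) F} (hg : g ∈ Iw v) : P1rep F g (indO v) = indO v := by
  classical
  funext x
  change indO v (g⁻¹ • x) = indO v x
  have h1 : g⁻¹ • x ∈ ballO v ↔ x ∈ ballO v := by
    constructor
    · intro h
      have := Iw_smul_ball v hg h
      rwa [smul_inv_smul] at this
    · intro h
      exact Iw_smul_ball v (inv_mem hg) h
  simp only [indO, h1]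

lemma indO_smooth : indO v ∈ P1smooth v := ⟨1, fun _ hk => Iw_indO v (Km_one_le_Iw v hk)⟩

/-- The special vector of the Steinberg representation: the class of the indicator function of the
ball `O`. -/
def s0 : StE v := Submodule.Quotient.mk ⟨indO v, indO_smooth v⟩

end val

end N589LL
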