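import Pool.Agent.N589.LL.Tasks2

/-!
# Assembly of project LL
-/

open scoped WithZero Polynomial MatrixGroups Topology
open IsDedekindDomain RestrictedProduct

noncomputable section

namespace N589LL

/-! ## Generalities -/

section rep

variable {G : Type} [Group G] {E : Type} [AddCommGroup E] [Module ℂ E]
variable (ρ : Representation ℂ G E)

lemma self_mem_cyc (x : E) : x ∈ cyc ρ x := by
  have : ρ 1 x = x := by simp
  exact Submodule.subset_span ⟨1, this⟩

lemma apply_mem_cyc (g : G) (x : E) : ρ g x ∈ cyc ρ x := Submodule.subset_span ⟨g, rfl⟩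

lemma cyc_stable (x : E) (g : G) {y : E} (hy : y ∈ cyc ρ x) : ρ g y ∈ cyc ρ x := by
  have h : cyc ρ x ≤ (cyc ρ x).comap (ρ g) := by
    refine Submodule.span_le.2 ?_
    rintro _ ⟨h, rfl⟩
    change ρ g (ρ h x) ∈ cyc ρ x
    rw [← Module.End.mul_apply, ← map_mul]
    exact apply_mem_cyc ρ _ x
  exact h hy

lemma cyc_le {W : Submodule ℂ E} (hW : ∀ g, ∀ x ∈ W, ρ g x ∈ W) {x : E} (hx : x ∈ W) :
    cyc ρ x ≤ W := Submodule.span_le.2 (by rintro _ ⟨g, rfl⟩; exact hW g x hx)

variable {ρ}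

lemma cyc_eq_top (h : Irred ρ) {x : E} (hx : x ≠ 0) : cyc ρ x = ⊤ := by
  rcases h.2 (cyc ρ x) (fun g y hy => cyc_stable ρ x g hy) with h0 | h1
  · exfalso; apply hx
    have := self_mem_cyc ρ x
    rw [h0] at this
    simpa using this
  · exact h1

lemma range_eq_cyc (h : Irred ρ) {x : E} (hx : x ≠ 0) {E' : Type} [AddCommGroup E'] [Module ℂ E']
    {ρ' : Representation ℂ G E'} {T : E →ₗ[ℂ] E'} (hT : ∀ g y, T (ρ g y) = ρ' g (T y)) :
    (⊤ : Submodule ℂ E).map T = cyc ρ' (T x) := by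
  rw [← cyc_eq_top h hx]
  unfold cyc
  rw [Submodule.map_span]
  congr 1
  ext y
  constructor
  · rintro ⟨_, ⟨g, rfl⟩, rfl⟩; exact ⟨g, (hT g x).symm⟩
  · rintro ⟨g, rfl⟩; exact ⟨_, ⟨g, rfl⟩, hT g x⟩

lemma map_cyc (x : E) {E' : Type} [AddCommGroup E'] [Module ℂ E']
    {ρ' : Representation ℂ G E'} {T : E →ₗ[ℂ] E'} (hT : ∀ g y, T (ρ g y) = ρ' g (T y)) :
    (cyc ρ x).map T = cyc ρ' (T x) := by
  unfold cyc
  rw [Submodule.map_span]
  congr 1
  ext y
  constructor
  · rintro ⟨_, ⟨g, rfl⟩, rfl⟩; exact ⟨g, (hT g x).symm⟩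
  · rintro ⟨g, rfl⟩; exact ⟨_, ⟨g, rfl⟩, hT g x⟩

lemma inj_of_irred (h : Irred ρ) {x : E} {E' : Type} [AddCommGroup E'] [Module ℂ E']
    {ρ' : Representation ℂ G E'} {T : E →ₗ[ℂ] E'} (hT : ∀ g y, T (ρ g y) = ρ' g (T y))
    (hx : T x ≠ 0) : Function.Injective T := by
  rcases h.2 (LinearMap.ker T) (fun g y hy => by
    rw [LinearMap.mem_ker] at hy ⊢; rw [hT, hy, map_zero]) with h0 | h1
  · exact LinearMap.ker_eq_bot.1 h0
  · exfalso; apply hx
    have : x ∈ LinearMap.ker T := by rw [h1]; trivial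
    exact this

end rep

/-! ## The decomposition `g = g_v g^v` -/

lemma sing_apply_same (v : Place) (g : Gv v) : sing v g v = g := by
  classical
  change RestrictedProduct.mulSingle Cv v g v = g
  convert RestrictedProduct.mulSingle_eq_same ..

lemma sing_apply_ne {v w : Place} (h : w ≠ v) (g : Gv v) : sing v g w = 1 := by
  classical
  change RestrictedProduct.mulSingle Cv v g w = 1
  convert RestrictedProduct.mulSingle_eq_of_ne .. using 1
  exact h

/-- An element with trivial component at `v` commutes with `G_v`. -/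
lemma commute_sing {v : Place} {g : GA} (hg : g v = 1) (x : Gv v) :
    g * sing v x = sing v x * g := by
  ext1 w
  rw [RestrictedProduct.mul_apply, RestrictedProduct.mul_apply]
  by_cases h : w = v
  · subst h; rw [hg, one_mul, mul_one]
  · rw [sing_apply_ne h, one_mul, mul_one]

/-- The part of `g` away from `v`. -/
def away (v : Place) (g : GA) : GA := (sing v (g v))⁻¹ * g

lemma away_apply (v : Place) (g : GA) : away v g v = 1 := by
  rw [away, RestrictedProduct.mul_apply, RestrictedProduct.inv_apply, sing_apply_same,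
    inv_mul_cancel]

lemma sing_mul_away (v : Place) (g : GA) : sing v (g v) * away v g = g := by
  rw [away, mul_inv_cancel_left]

lemma away_mul_sing (v : Place) (g : GA) : away v g * sing v (g v) = g := by
  rw [commute_sing (away_apply v g), sing_mul_away]

/-! ## Local component at infinity -/

lemma val_piInf : val none (piInf : Kv none) = WithZero.exp (-1) := by
  have h1 : val none (tInf : Kv none) = WithZero.exp 1 := by
    have : (tInf : Kv none) = incl none RatFunc.X := rfl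
    rw [this, val_incl]
    classical
    change RatFunc.inftyValuation (ZMod 2) RatFunc.X = _
    convert RatFunc.inftyValuation.X (ZMod 2)
  rw [piInf, Units.val_inv_eq_inv_val, map_inv₀, h1, ← WithZero.exp_neg]

lemma loc2_inf (h : TaskGlob) : Loc2 (val none) piInf := ⟨val_piInf, h.1⟩

/-- The Steinberg representation of `GL_2(K_∞)` as an irreducible smooth representation. -/
def StInf (h1 : TaskIrred) (h3 : TaskFix) (h6 : TaskGlob) (h7 : TaskGl) : IrrRep (Gv none) where
  E := StE (val none)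
  ρ := StRep (val none)
  irr := h1 _ _ piInf (loc2_inf h6)
  smooth := fun x => by
    obtain ⟨m, hm⟩ := (h3 _ _ piInf (loc2_inf h6)).2.1 x
    exact ⟨_, (h7 none).1 m, hm⟩

/-! ## Admissibility -/

lemma st_adm (h3 : TaskFix) (h6 : TaskGlob) (h7 : TaskGl) :
    AdmSub (StRep (val none)) ⊤ := by
  obtain ⟨-, hs, hf⟩ := h3 _ (val none) piInf (loc2_inf h6)
  refine ⟨fun x _ => ?_, fun H hH => ?_⟩
  · obtain ⟨m, hm⟩ := hs x
    exact ⟨_, (h7 none).1 m, hm⟩
  · obtain ⟨m, hm⟩ := (h7 none).2.1 H hH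
    have := hf m
    refine Submodule.finiteDimensional_of_le (S₂ := fixedBy (StRep (val none)) (Km (val none) m)) ?_
    intro x hx h hh
    exact hx.2 h (hm hh)

lemma rt_smooth (hGA : TaskGA) {f : GA → ℂ}
    (hf : ∃ U : Subgroup GA, IsOpen (U : Set GA) ∧ ∀ u ∈ U, ∀ g, f (g * u) = f g)
    {F : GA → ℂ} (hF : F ∈ cyc (Rt GA) f) :
    ∃ U : Subgroup GA, IsOpen (U : Set GA) ∧ ∀ u ∈ U, ∀ g, F (g * u) = F g := by
  have := hGA.1
  obtain ⟨U, hU, hf⟩ := hf
  induction hF using Submodule.span_induction with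
  | mem x hx =>
    obtain ⟨h, rfl⟩ := hx
    let c : GA →* GA := (MulAut.conj h⁻¹).toMonoidHom
    have hc : Continuous c := by
      change Continuous fun x => h⁻¹ * x * (h⁻¹)⁻¹
      fun_prop
    refine ⟨U.comap c, hU.preimage hc, fun u hu g => ?_⟩
    change f (g * u * h) = f (g * h)
    have e : g * u * h = g * h * (h⁻¹ * u * (h⁻¹)⁻¹) := by group
    rw [e]
    exact hf _ hu _
  | zero => exact ⟨⊤, isOpen_univ, fun _ _ _ => rfl⟩
  | add x y _ _ hx hy =>
    obtain ⟨V, hV, hx⟩ := hx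
    obtain ⟨W, hW, hy⟩ := hy
    refine ⟨V ⊓ W, hV.inter hW, fun u hu g => ?_⟩
    rw [Pi.add_apply, Pi.add_apply, hx u hu.1, hy u hu.2]
  | smul a x _ hx =>
    obtain ⟨V, hV, hx⟩ := hx
    refine ⟨V, hV, fun u hu g => ?_⟩
    rw [Pi.smul_apply, Pi.smul_apply, hx u hu]

lemma rt_left {f : GA → ℂ}
    (hf : ∀ (γ : GL (Fin 2) K) (g : GA), f (diag γ * g) = f g)
    {F : GA → ℂ} (hF : F ∈ cyc (Rt GA) f) :
    ∀ (γ : GL (Fin 2) K) (g : GA), F (diag γ * g) = F g := by
  induction hF using Submodule.span_induction with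
  | mem x hx =>
    obtain ⟨h, rfl⟩ := hx
    intro γ g
    change f (diag γ * g * h) = f (g * h)
    rw [mul_assoc, hf]
  | zero => exact fun _ _ => rfl
  | add x y _ _ hx hy =>
    intro γ g
    rw [Pi.add_apply, Pi.add_apply, hx, hy]
  | smul a x _ hx =>
    intro γ g
    rw [Pi.smul_apply, Pi.smul_apply, hx]

lemma admVec_of_cyc (h7 : TaskGl) (hAdm : TaskAdm) {f : GA → ℂ}
    (hf : AdmSub rhoInf (cyc rhoInf f)) {F : GA → ℂ} (hF : F ∈ cyc (Rt GA) f) :
    AdmVec rhoInf F := by
  have key : ∃ W : Submodule ℂ (GA → ℂ), (∀ g, ∀ x ∈ W, rhoInf g x ∈ W) ∧ AdmSub rhoInf W ∧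
      F ∈ W := by
    obtain ⟨ha, hb, -⟩ := hAdm (Gv none) (Cv none) (h7 none).2.2.2.1 (h7 none).2.2.1 _ rhoInf
    induction hF using Submodule.span_induction with
    | mem x hx =>
      obtain ⟨h, rfl⟩ := hx
      have hcomm : ∀ g x, (Rt GA (away none h)) (rhoInf g x) =
          rhoInf g ((Rt GA (away none h)) x) := by
        intro g x
        change (Rt GA (away none h)) (Rt GA (sing none g) x) =
          Rt GA (sing none g) ((Rt GA (away none h)) x)
        rw [← Module.End.mul_apply, ← Module.End.mul_apply, ← map_mul, ← map_mul,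
          commute_sing (away_apply none h)]
      refine ⟨(cyc rhoInf f).map (Rt GA (away none h)), ?_, ?_, ?_⟩
      · rintro g _ ⟨y, hy, rfl⟩
        exact ⟨rhoInf g y, cyc_stable rhoInf f g hy, hcomm g y⟩
      · exact hb _ rhoInf _ hcomm _ (fun g x hx => cyc_stable rhoInf f g hx) hf
      · refine ⟨rhoInf (h none) f, apply_mem_cyc rhoInf _ f, ?_⟩
        change (Rt GA (away none h)) (Rt GA (sing none (h none)) f) = Rt GA h f
        rw [← Module.End.mul_apply, ← map_mul, away_mul_sing]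
    | zero =>
      refine ⟨⊥, ?_, ⟨?_, ?_⟩, Submodule.zero_mem _⟩
      · intro g x hx
        rw [Submodule.mem_bot] at hx ⊢
        rw [hx, map_zero]
      · intro x hx
        rw [Submodule.mem_bot] at hx
        refine ⟨⊤, isOpen_univ, fun h _ => ?_⟩
        rw [hx, map_zero]
      · intro H _
        rw [bot_inf_eq]
        infer_instance
    | add x y _ _ hx hy =>
      obtain ⟨V, hV1, hV2, hx⟩ := hx
      obtain ⟨W, hW1, hW2, hy⟩ := hy
      refine ⟨V ⊔ W, ?_, ha V W hV1 hW1 hV2 hW2, add_mem (Submodule.mem_sup_left hx)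
        (Submodule.mem_sup_right hy)⟩
      intro g x hx
      obtain ⟨a, ha, b, hb, rfl⟩ := Submodule.mem_sup.1 hx
      rw [map_add]
      exact add_mem (Submodule.mem_sup_left (hV1 g a ha)) (Submodule.mem_sup_right (hW1 g b hb))
    | smul a x _ hx =>
      obtain ⟨V, hV1, hV2, hx⟩ := hx
      exact ⟨V, hV1, hV2, Submodule.smul_mem _ _ hx⟩
  obtain ⟨W, hW1, hW2, hF⟩ := key
  refine ⟨hW2.1 F hF, fun H hH => ?_⟩
  have := hW2.2 H hH
  exact Submodule.finiteDimensional_of_le (inf_le_inf_right _ (cyc_le rhoInf hW1 hF))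

/-- `x0` generates a representation which is the image of Steinberg. -/
lemma adm_of_T (h1 : TaskIrred) (h3 : TaskFix) (h6 : TaskGlob) (h7 : TaskGl) (hAdm : TaskAdm)
    {E : Type} [AddCommGroup E] [Module ℂ E] {ρ : Representation ℂ (Gv none) E}
    {T : StE (val none) →ₗ[ℂ] E} (hT : ∀ g y, T (StRep (val none) g y) = ρ g (T y))
    (hs : s0 (val none) ≠ 0) :
    AdmSub ρ (cyc ρ (T (s0 (val none)))) := by
  obtain ⟨-, hb, -⟩ := hAdm (Gv none) (Cv none) (h7 none).2.2.2.1 (h7 none).2.2.1 _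
    (StRep (val none))
  have := hb E ρ T hT ⊤ (fun _ _ _ => trivial) (st_adm h3 h6 h7)
  rwa [range_eq_cyc (h1 _ _ piInf (loc2_inf h6)) hs hT] at this

/-! ## The cuspidal representation -/

/-- There is a cuspidal automorphic representation whose component at infinity is Steinberg. -/
lemma exists_cuspidal (h1 : TaskIrred) (h2 : TaskSpecial) (h3 : TaskFix) (h4 : TaskUniv)
    (h6 : TaskGlob) (h7 : TaskGl) (h8 : TaskGA) (hF1 : TaskF1) (hCusp : TaskCusp)
    (hAdm : TaskAdm) (hQuot : TaskQuot) :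
    ∃ π : IrrRep GA, IsCuspRep π ∧ IsAutRep π ∧ IsComp π none (StInf h1 h3 h6 h7) := by
  obtain ⟨f, hf1, hleft, hsm, hsp, hcu⟩ := hF1
  have hs := (h2 _ (val none) piInf (loc2_inf h6)).2
  obtain ⟨T, hT0, hT⟩ := h4 _ (val none) piInf (loc2_inf h6) _ rhoInf f hsp
  have hadm : AdmSub rhoInf (cyc rhoInf f) := by
    have := adm_of_T h1 h3 h6 h7 hAdm hT hs
    rwa [hT0] at this
  have hf0 : f ≠ 0 := by
    intro h; rw [h] at hf1; simp at hf1
  have haut : ∀ F ∈ cyc (Rt GA) f, IsAutForm F := fun F hF =>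
    { left_inv := rt_left hleft hF
      smooth := rt_smooth h8 hsm hF
      admissible := ⟨none, admVec_of_cyc h7 hAdm hadm hF⟩ }
  have hcusp : ∀ F ∈ cyc (Rt GA) f, IsCuspidal F := hCusp f hleft hsm hcu
  obtain ⟨hV, π, p, hp, hpe, hfm, hpf⟩ := hQuot f hf0 hsm
  refine ⟨π, ⟨_, hV, fun F hF => ⟨haut F hF, hcusp F hF⟩, p, hp, hpe⟩,
    ⟨_, hV, haut, p, hp, hpe⟩, ?_⟩
  have hTm : ∀ y, T y ∈ cyc (Rt GA) f := by
    intro y
    have h5 : T y ∈ (⊤ : Submodule ℂ _).map T := ⟨y, trivial, rfl⟩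
    rw [range_eq_cyc (h1 _ _ piInf (loc2_inf h6)) hs hT, hT0] at h5
    exact cyc_le rhoInf (W := cyc (Rt GA) f) (fun g x hx => hV _ _ hx) hfm h5
  let T' : StE (val none) →ₗ[ℂ] cyc (Rt GA) f := T.codRestrict _ hTm
  have hj : ∀ g y, (p ∘ₗ T') (StRep (val none) g y) = (π.ρ.comp (sing none)) g ((p ∘ₗ T') y) := by
    intro g y
    change p (T' _) = π.ρ (sing none g) (p (T' y))
    rw [← hpe]
    congr 1
    ext1
    exact hT g y
  refine ⟨p ∘ₗ T', ?_, hj⟩
  refine inj_of_irred (h1 _ _ piInf (loc2_inf h6)) (x := s0 (val none)) hj ?_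
  have e : T' (s0 (val none)) = ⟨f, hfm⟩ := Subtype.ext hT0
  change p (T' (s0 (val none))) ≠ 0
  rw [e]
  exact hpf

/-! ## The representation `St_∞ ⊗ 1` -/

/-- `St_∞ ⊗ 1`: the group `GL_2(A)` acts through `GL_2(K_∞)` on the Steinberg representation. -/
def PiTwo (h1 : TaskIrred) (h3 : TaskFix) (h6 : TaskGlob) (h7 : TaskGl) : IrrRep GA where
  E := StE (val none)
  ρ := (StRep (val none)).comp (RestrictedProduct.evalMonoidHom _ none)
  irr := by
    have h := h1 _ (val none) piInf (loc2_inf h6)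
    refine ⟨h.1, fun W hW => h.2 W fun g x hx => ?_⟩
    have := hW (sing none g) x hx
    change StRep (val none) (sing none g none) x ∈ W at this
    rwa [sing_apply_same] at this
  smooth := fun x => by
    obtain ⟨U, hU, hx⟩ := (StInf h1 h3 h6 h7).smooth x
    refine ⟨U.comap (RestrictedProduct.evalMonoidHom _ none),
      hU.preimage (RestrictedProduct.continuous_eval none), fun g hg => ?_⟩
    exact hx _ hg

/-- The constant functions. -/
def constF : Submodule ℂ (GA → ℂ) := Submodule.span ℂ {fun _ => 1}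

lemma constF_stable (g : GA) {x : GA → ℂ} (hx : x ∈ constF) : Rt GA g x = x := by
  induction hx using Submodule.span_induction with
  | mem x hx => rw [Set.mem_singleton_iff] at hx; subst hx; rfl
  | zero => rw [map_zero]
  | add x y _ _ hx hy => rw [map_add, hx, hy]
  | smul a x _ hx => rw [_root_.map_smul, hx]

/-- The representation of `GL_2(K_∞)` on functions modulo constants. -/
def rhoM : Representation ℂ (Gv none) ((GA → ℂ) ⧸ constF) :=
  rhoInf.quotient constF (fun g x hx => by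
    change rhoInf g x ∈ constF
    rw [show rhoInf g x = x from constF_stable _ hx]; exact hx)

lemma rhoM_mk (g : Gv none) (x : GA → ℂ) :
    rhoM g (Submodule.Quotient.mk x) = Submodule.Quotient.mk (rhoInf g x) := rfl

lemma adm_const (F : GA → ℂ) (hF : F ∈ constF) : AdmSub rhoInf (cyc rhoInf F) := by
  have hle : cyc rhoInf F ≤ constF :=
    cyc_le rhoInf (fun g x hx => by
      rw [show rhoInf g x = x from constF_stable _ hx]; exact hx) hF
  refine ⟨fun x hx => ⟨⊤, isOpen_univ, fun g _ => constF_stable _ (hle hx)⟩, fun H _ => ?_⟩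
  have : FiniteDimensional ℂ constF := by
    unfold constF; infer_instance
  exact Submodule.finiteDimensional_of_le (inf_le_left.trans hle)

/-- `St_∞ ⊗ 1` is automorphic. -/
lemma piTwo_aut (h1 : TaskIrred) (h2 : TaskSpecial) (h3 : TaskFix) (h4 : TaskUniv)
    (h6 : TaskGlob) (h7 : TaskGl) (h8 : TaskGA) (hF2 : TaskF2) (hAvg : TaskAvg)
    (hAdm : TaskAdm) : IsAutRep (PiTwo h1 h3 h6 h7) := by
  have htop := h8.1
  have hirr := h1 _ (val none) piInf (loc2_inf h6)
  have hs := (h2 _ (val none) piInf (loc2_inf h6)).2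
  obtain ⟨⟨f, hleft, hfin, hiw, hsca, heta, hsum⟩, huniq⟩ := hF2
  obtain ⟨P, hP⟩ := hAvg GA Cfin h8.2.2.1 _ (Rt GA)
  -- smoothness of `f`
  have hsm : ∃ U : Subgroup GA, IsOpen (U : Set GA) ∧ ∀ u ∈ U, ∀ g, f (g * u) = f g := by
    let H : (v : Place) → Subgroup (Gv v) := fun v => match v with
      | none => Iw (val none)
      | some w => Cv (some w)
    let U : Subgroup GA :=
      { carrier := {g | ∀ v, g v ∈ H v}
        mul_mem' := fun {a b} ha hb v => by
          rw [RestrictedProduct.mul_apply]; exact mul_mem (ha v) (hb v)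
        one_mem' := fun v => by rw [RestrictedProduct.one_apply]; exact one_mem _
        inv_mem' := fun {a} ha v => by
          rw [RestrictedProduct.inv_apply]; exact inv_mem (ha v) }
    refine ⟨U, h8.2.2.2 H ?_ ?_ ?_, fun u hu g => ?_⟩
    · rintro (_ | w)
      · exact (h7 none).2.2.2.2
      · exact (h7 (some w)).2.2.2.1
    · rintro (_ | w)
      · intro x hx; exact hx.1
      · exact le_rfl
    · refine (Set.finite_singleton none).subset ?_
      rintro (_ | w) hv
      · rfl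
      · exact absurd rfl hv
    · have e : g * u = g * sing none (u none) * away none u := by
        rw [mul_assoc, sing_mul_away]
      have hc : away none u ∈ Cfin := by
        refine ⟨away_apply none u, ?_⟩
        rintro (_ | w)
        · rw [away_apply]; exact one_mem _
        · rw [away, RestrictedProduct.mul_apply, RestrictedProduct.inv_apply,
            sing_apply_ne (by simp), inv_one, one_mul]
          exact hu (some w)
      rw [e, hfin _ hc]
      exact congrFun (hiw _ (hu none)) g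
  have hsmV : ∀ F ∈ cyc (Rt GA) f, ∃ U : Subgroup GA, IsOpen (U : Set GA) ∧
      F ∈ fixedBy (Rt GA) U := by
    intro F hF
    obtain ⟨U, hU, h⟩ := rt_smooth h8 hsm hF
    exact ⟨U, hU, fun u hu => funext fun g => h u hu g⟩
  have hcst : ∀ c : ℂ, P (fun _ => c) = fun _ => c := by
    intro c
    exact (hP (fun _ => c) ⟨⊤, isOpen_univ, fun _ _ => rfl⟩).2.2.1 fun _ _ => rfl
  -- the effect of the averaging operator on translates of `f`
  have hcen : ∀ (x : Gv none), ∀ c ∈ Cfin, sing none x * c = c * sing none x :=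
    fun x c hc => (commute_sing hc.1 x).symm
  have key0 : ∀ g : GA, g none = 1 → P (Rt GA g f) = f := by
    intro g hg
    obtain ⟨hP1, hP2, -, hP4⟩ := hP _ (hsmV _ (apply_mem_cyc (Rt GA) g f))
    have hmem : P (Rt GA g f) ∈ cyc (Rt GA) f := by
      refine (Submodule.span_le.2 ?_ : _ ≤ cyc (Rt GA) f) hP1
      rintro _ ⟨c, -, rfl⟩
      exact cyc_stable (Rt GA) f c (apply_mem_cyc (Rt GA) g f)
    have hcomm : ∀ h : Gv none, rhoInf h (P (Rt GA g f)) = P (Rt GA g (rhoInf h f)) := by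
      intro h
      change Rt GA (sing none h) (P (Rt GA g f)) = P (Rt GA g (Rt GA (sing none h) f))
      rw [← hP4 (sing none h) (hcen h)]
      congr 1
      rw [← Module.End.mul_apply, ← Module.End.mul_apply, ← map_mul, ← map_mul,
        commute_sing hg]
    have hD : P (Rt GA g f) - f = 0 := by
      refine huniq _ ?_ ?_ ⟨?_, ?_, ?_, ?_⟩
      · intro γ x
        rw [Pi.sub_apply, Pi.sub_apply, rt_left hleft hmem, hleft]
      · intro c hc x
        rw [Pi.sub_apply, Pi.sub_apply, hfin c hc]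
        congr 1
        exact congrFun (hP2 c hc) x
      · intro h hh
        rw [map_sub, hcomm, hiw h hh]
      · intro z
        rw [map_sub, hcomm, hsca z]
      · rw [map_sub, hcomm, heta, map_neg, map_neg]; abel
      · rw [map_sub, map_sub, hcomm, hcomm]
        have e1 : f + rhoInf wm f + rhoInf (lwr 1) f = fun _ => (3 : ℂ) := by
          funext x; exact hsum x
        have e2 : P (Rt GA g f) + P (Rt GA g (rhoInf wm f)) + P (Rt GA g (rhoInf (lwr 1) f)) =
            fun _ => (3 : ℂ) := by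
          rw [← map_add, ← map_add, ← map_add, ← map_add, e1]
          exact hcst 3
        have e3 : P (Rt GA g f) - f + (P (Rt GA g (rhoInf wm f)) - rhoInf wm f) +
            (P (Rt GA g (rhoInf (lwr 1) f)) - rhoInf (lwr 1) f) =
            (P (Rt GA g f) + P (Rt GA g (rhoInf wm f)) + P (Rt GA g (rhoInf (lwr 1) f))) -
              (f + rhoInf wm f + rhoInf (lwr 1) f) := by abel
        rw [e3, e1, e2, sub_self]
    exact sub_eq_zero.1 hD
  have key : ∀ g : GA, P (Rt GA g f) = rhoInf (g none) f := by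
    intro g
    have e : Rt GA g f = Rt GA (sing none (g none)) (Rt GA (away none g) f) := by
      rw [← Module.End.mul_apply, ← map_mul, sing_mul_away]
    rw [e, (hP _ (hsmV _ (apply_mem_cyc (Rt GA) (away none g) f))).2.2.2 _ (hcen _),
      key0 _ (away_apply none g)]
    rfl
  -- the special vector modulo constants
  have hspec : Special (val none) rhoM piInf (Submodule.Quotient.mk f) := by
    refine ⟨fun g hg => ?_, fun z => ?_, ?_, ?_⟩
    · rw [rhoM_mk, hiw g hg]
    · rw [rhoM_mk, hsca z]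
    · rw [rhoM_mk, heta]; rfl
    · rw [rhoM_mk, rhoM_mk, ← Submodule.Quotient.mk_add, ← Submodule.Quotient.mk_add,
        Submodule.Quotient.mk_eq_zero]
      have : f + rhoInf wm f + rhoInf (lwr 1) f = (3 : ℂ) • (fun _ => 1 : GA → ℂ) := by
        funext g
        simpa using hsum g
      rw [this]
      exact Submodule.smul_mem _ _ (Submodule.subset_span rfl)
  obtain ⟨T, hT0, hT⟩ := h4 _ (val none) piInf (loc2_inf h6) _ rhoM _ hspec
  have hx0 : (Submodule.Quotient.mk f : (GA → ℂ) ⧸ constF) ≠ 0 := by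
    intro h
    rw [Submodule.Quotient.mk_eq_zero] at h
    have e1 : rhoInf (eta piInf) f = f := constF_stable _ h
    rw [heta] at e1
    have e2 : f = 0 := by
      have : (2 : ℂ) • f = 0 := by rw [two_smul]; nth_rewrite 1 [← e1]; simp
      simpa using this
    have := hsum 1
    rw [e2] at this
    simp at this
  have hinj : Function.Injective T := inj_of_irred hirr hT (by rw [hT0]; exact hx0)
  -- the map `q`
  let q : (GA → ℂ) →ₗ[ℂ] (GA → ℂ) ⧸ constF := constF.mkQ ∘ₗ P
  have hq : ∀ g, q (Rt GA g f) = T (StRep (val none) (g none) (s0 (val none))) := by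
    intro g
    rw [hT, hT0, rhoM_mk]
    change Submodule.Quotient.mk (P (Rt GA g f)) = _
    rw [key]
  have hqr : ∀ F ∈ cyc (Rt GA) f, q F ∈ LinearMap.range T := by
    intro F hF
    have : cyc (Rt GA) f ≤ (LinearMap.range T).comap q := by
      refine Submodule.span_le.2 ?_
      rintro _ ⟨g, rfl⟩
      exact ⟨_, (hq g).symm⟩
    exact this hF
  have hqe : ∀ (g : GA), ∀ F ∈ cyc (Rt GA) f, q (Rt GA g F) = rhoM (g none) (q F) := by
    intro g F hF
    induction hF using Submodule.span_induction with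
    | mem x hx =>
      obtain ⟨h, rfl⟩ := hx
      rw [← Module.End.mul_apply, ← map_mul, hq, hq, ← hT, ← Module.End.mul_apply, ← map_mul,
        RestrictedProduct.mul_apply]
    | zero => simp
    | add x y _ _ hx hy => rw [map_add, map_add, hx, hy, map_add, map_add]
    | smul a x _ hx => rw [_root_.map_smul, _root_.map_smul, hx, _root_.map_smul, _root_.map_smul]
  let p : cyc (Rt GA) f →ₗ[ℂ] StE (val none) :=
    (LinearEquiv.ofInjective T hinj).symm.toLinearMap ∘ₗ
      ((q ∘ₗ (cyc (Rt GA) f).subtype).codRestrict (LinearMap.range T) fun F => hqr F F.2)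
  have hp : ∀ F : cyc (Rt GA) f, T (p F) = q F := by
    intro F
    have : (LinearEquiv.ofInjective T hinj) (p F) = ⟨q F, hqr F F.2⟩ :=
      (LinearEquiv.ofInjective T hinj).apply_symm_apply _
    exact congrArg Subtype.val this
  have hV : ∀ g, ∀ F ∈ cyc (Rt GA) f, Rt GA g F ∈ cyc (Rt GA) f :=
    fun g F hF => cyc_stable (Rt GA) f g hF
  have hpe : ∀ (g : GA) (F : cyc (Rt GA) f), p ⟨Rt GA g F, hV g F F.2⟩ =
      StRep (val none) (g none) (p F) := by
    intro g F
    apply hinj
    rw [hp, hT, hp, hqe g F F.2]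
  -- admissibility
  have hadm : AdmSub rhoInf (cyc rhoInf f) := by
    obtain ⟨-, -, hc⟩ := hAdm (Gv none) (Cv none) (h7 none).2.2.2.1 (h7 none).2.2.1 _ rhoInf
    refine hc _ rhoM constF.mkQ (fun _ _ => rfl) _ ?_ ?_ ?_
    · intro x hx
      have hx' : x ∈ cyc (Rt GA) f :=
        cyc_le rhoInf (W := cyc (Rt GA) f) (fun g y hy => hV _ y hy)
          (self_mem_cyc (Rt GA) f) hx
      obtain ⟨U, hU, h⟩ := hsmV x hx'
      exact ⟨U.comap (sing none), hU.preimage (h8.2.1 none), fun g hg => h _ hg⟩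
    · have hle : cyc rhoInf f ⊓ LinearMap.ker constF.mkQ ≤ constF := by
        rw [Submodule.ker_mkQ]; exact inf_le_right
      refine ⟨fun x hx => ⟨⊤, isOpen_univ, fun g _ => constF_stable _ (hle hx)⟩, fun H _ => ?_⟩
      have : FiniteDimensional ℂ constF := by
        unfold constF; infer_instance
      exact Submodule.finiteDimensional_of_le (inf_le_left.trans hle)
    · rw [map_cyc f (ρ' := rhoM) (fun _ _ => rfl)]
      have := adm_of_T h1 h3 h6 h7 hAdm hT hs
      rwa [hT0] at this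
  have hsurj : Function.Surjective p := by
    rw [← LinearMap.range_eq_top]
    rcases hirr.2 (LinearMap.range p) (by
      rintro g _ ⟨F, rfl⟩
      refine ⟨⟨Rt GA (sing none g) F, hV _ F F.2⟩, ?_⟩
      rw [hpe, sing_apply_same]) with h0 | h1'
    · exfalso
      apply hx0
      have e1 : p ⟨f, self_mem_cyc (Rt GA) f⟩ = 0 := by
        have : p ⟨f, self_mem_cyc (Rt GA) f⟩ ∈ LinearMap.range p := ⟨_, rfl⟩
        rwa [h0, Submodule.mem_bot] at this
      have e2 := hp ⟨f, self_mem_cyc (Rt GA) f⟩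
      rw [e1, map_zero] at e2
      have e3 := hq 1
      rw [map_one, Module.End.one_apply, RestrictedProduct.one_apply, map_one,
        Module.End.one_apply, hT0] at e3
      rw [← e3, ← e2]
    · exact h1'
  exact ⟨cyc (Rt GA) f, hV, fun F hF =>
    { left_inv := rt_left hleft hF
      smooth := rt_smooth h8 hsm hF
      admissible := ⟨none, admVec_of_cyc h7 hAdm hadm hF⟩ }, p, hsurj, hpe⟩

/-! ## The trivial representation -/

/-- The trivial representation of `GL_2(A)`. -/
def PiTriv : IrrRep GA where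
  E := ℂ
  ρ := 1
  irr := by
    refine ⟨inferInstance, fun W _ => ?_⟩
    exact eq_bot_or_eq_top W
  smooth := fun x => ⟨⊤, isOpen_univ, fun _ _ => rfl⟩

lemma piTriv_aut : IsAutRep PiTriv := by
  refine ⟨constF, fun g x hx => by rw [constF_stable _ hx]; exact hx, fun F hF => ?_,
    (LinearMap.proj (1 : GA)) ∘ₗ constF.subtype, ?_, ?_⟩
  · refine ⟨?_, ⟨⊤, isOpen_univ, fun u _ g => congrFun (constF_stable u hF) g⟩, none, ?_⟩
    · intro γ g
      have h1 := congrFun (constF_stable g hF) (diag γ)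
      have h2 := congrFun (constF_stable g hF) 1
      have h3 := congrFun (constF_stable (diag γ) hF) 1
      change F (diag γ * g) = F (diag γ) at h1
      change F (1 * g) = F 1 at h2
      change F (1 * diag γ) = F 1 at h3
      rw [one_mul] at h2 h3
      rw [h1, h2, h3]
    · have := adm_const F hF
      exact ⟨this.1 F (self_mem_cyc _ F), this.2⟩
  · intro (c : ℂ)
    have hc : (fun _ => c : GA → ℂ) ∈ constF := by
      have : (fun _ => c : GA → ℂ) = c • (fun _ => (1 : ℂ) : GA → ℂ) := by funext; simp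
      rw [this]
      exact Submodule.smul_mem _ _ (Submodule.subset_span rfl)
    exact ⟨⟨fun _ => c, hc⟩, rfl⟩
  · intro g F
    change Rt GA g F.1 1 = F.1 1
    rw [constF_stable g F.2]

/-- A representation with trivial action is contained in the trivial representation. -/
lemma comp_triv {v : Place} {τ : IrrRep (Gv v)} (h : ∀ g x, τ.ρ g x = x) :
    IsComp PiTriv v τ := by
  obtain ⟨hn, hW⟩ := τ.irr
  obtain ⟨x, hx⟩ := exists_ne (0 : τ.E)
  have htop : Submodule.span ℂ {x} = ⊤ := by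
    rcases hW (Submodule.span ℂ {x}) (fun g y hy => by rw [h]; exact hy) with h0 | h1
    · exfalso; apply hx
      have : x ∈ Submodule.span ℂ {x} := Submodule.subset_span rfl
      rwa [h0, Submodule.mem_bot] at this
    · exact h1
  let e : ℂ →ₗ[ℂ] τ.E := LinearMap.toSpanSingleton ℂ τ.E x
  have he : Function.Bijective e := by
    constructor
    · rw [← LinearMap.ker_eq_bot]
      exact LinearMap.ker_toSpanSingleton ℂ hx
    · rw [← LinearMap.range_eq_top, LinearMap.range_toSpanSingleton, htop]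
  refine ⟨(LinearEquiv.ofBijective e he).symm.toLinearMap, (LinearEquiv.ofBijective e he).symm.injective, fun g y => ?_⟩
  rw [h]
  rfl

/-- Conversely. -/
lemma triv_of_comp {v : Place} {τ : IrrRep (Gv v)} (h : IsComp PiTriv v τ) (g : Gv v) (x : τ.E) :
    τ.ρ g x = x := by
  obtain ⟨j, hj, hje⟩ := h
  apply hj
  rw [hje]
  rfl

lemma char_id {c₁ c₂ : HeckeChar} (hc : ∀ (v : Place) (a d : (Kv v)ˣ),
    ((c₂.χ (singI v a) : ℂˣ) : ℂ) * ((c₁.χ (singI v d) : ℂˣ) : ℂ) *
      ((nrm v a / nrm v d) ^ (1 / 2 : ℝ) : ℝ) = 1) (v : Place) (a d : (Kv v)ˣ) :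
    ((c₁.χ (singI v a) : ℂˣ) : ℂ) * ((c₂.χ (singI v d) : ℂˣ) : ℂ) *
      ((nrm v a / nrm v d) ^ (1 / 2 : ℝ) : ℝ) = ((nrm v a / nrm v d : ℝ) : ℂ) := by
  have h := hc v d a
  have hnn : ∀ x, 0 ≤ nrm v x := fun x => by unfold nrm; positivity
  have hr0 : nrm v d / nrm v a ≠ 0 := by
    intro h0
    rw [h0, Real.zero_rpow (by norm_num)] at h
    simp at h
  have hd : nrm v d ≠ 0 := fun h0 => hr0 (by rw [h0, zero_div])
  have ha : nrm v a ≠ 0 := fun h0 => hr0 (by rw [h0, div_zero])
  set r := nrm v a / nrm v d with hr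
  have hrpos : 0 < r := lt_of_le_of_ne (div_nonneg (hnn _) (hnn _)) (div_ne_zero ha hd).symm
  have e1 : nrm v d / nrm v a = r⁻¹ := by rw [hr, inv_div]
  rw [e1, Real.inv_rpow hrpos.le, Complex.ofReal_inv] at h
  have hs : ((r ^ (1 / 2 : ℝ) : ℝ) : ℂ) ≠ 0 := by
    rw [Complex.ofReal_ne_zero]
    exact (Real.rpow_pos_of_pos hrpos _).ne'
  have e2 : ((r ^ (1 / 2 : ℝ) : ℝ) : ℂ) * ((r ^ (1 / 2 : ℝ) : ℝ) : ℂ) = (r : ℂ) := by
    rw [← Complex.ofReal_mul, ← Real.rpow_add hrpos]; norm_num
  have e3 : ((c₂.χ (singI v d) : ℂˣ) : ℂ) * ((c₁.χ (singI v a) : ℂˣ) : ℂ) =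
      ((r ^ (1 / 2 : ℝ) : ℝ) : ℂ) := by
    rw [mul_inv_eq_one₀ hs] at h
    exact h
  rw [mul_comm ((c₁.χ (singI v a) : ℂˣ) : ℂ), e3, e2]

lemma piTriv_isobaric (hChar : TaskChar) (hHaar : TaskHaar) : IsIsobaric PiTriv := by
  refine ⟨piTriv_aut, Or.inr ?_⟩
  obtain ⟨c₁, c₂, hle, hc⟩ := hChar
  refine ⟨c₁, c₂, hle, fun v τ hτ => ?_⟩
  have htriv := triv_of_comp hτ
  obtain ⟨j0, hj0, -⟩ := hτ
  obtain ⟨j, hj⟩ : ∃ j : τ.E →ₗ[ℂ] ℂ, Function.Injective j := ⟨j0, hj0⟩
  have hjs : Function.Surjective j := by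
    obtain ⟨x, hx⟩ := @exists_ne _ τ.irr.1 (0 : τ.E)
    have hjx : j x ≠ 0 := fun h => hx (hj (by rw [h, map_zero]))
    intro c
    refine ⟨(c / j x) • x, ?_⟩
    rw [_root_.map_smul, smul_eq_mul, div_mul_cancel₀ c hjx]
  obtain ⟨Λ, hΛ, φ, hφ1, hφ2, hφ3⟩ := hHaar v
  let e := LinearEquiv.ofBijective j ⟨hj, hjs⟩
  let q : PS (c₁.χ.comp (singI v)) (c₂.χ.comp (singI v)) →ₗ[ℂ] ℂ := Λ ∘ₗ Submodule.subtype _
  have hφm : φ ∈ PS (c₁.χ.comp (singI v)) (c₂.χ.comp (singI v)) := by
    refine ⟨hφ1, fun a d b g => ?_⟩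
    rw [hφ2]
    congr 1
    exact (char_id hc v a d).symm
  refine ⟨e.symm.toLinearMap ∘ₗ q, e.symm.surjective.comp ?_, ?_⟩
  · intro c
    refine ⟨(c / Λ φ) • ⟨φ, hφm⟩, ?_⟩
    rw [_root_.map_smul]
    change (c / Λ φ) * Λ φ = c
    rw [div_mul_cancel₀ c hφ3]
  · intro g x y hxy
    rw [htriv]
    change e.symm (Λ y.1) = e.symm (Λ x.1)
    congr 1
    have h1 : y.1 = Rt (Gv v) g x.1 := funext hxy
    rw [h1]
    refine hΛ x.1 x.2.1 (fun a d b g => ?_) g
    rw [x.2.2]
    congr 1
    exact char_id hc v a d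

/-! ## Conclusion -/

lemma lift_two (h1 : TaskIrred) (h3 : TaskFix) (h6 : TaskGlob) (h7 : TaskGl)
    (hChar : TaskChar) (hHaar : TaskHaar) : IsLifting (PiTwo h1 h3 h6 h7) PiTriv := by
  refine ⟨piTriv_isobaric hChar hHaar, ?_⟩
  intro v τ hun hcomp
  cases v with
  | none =>
    exfalso
    obtain ⟨x, hx0, hx⟩ := hun
    obtain ⟨j, hj, hje⟩ := hcomp
    apply hx0
    apply hj
    rw [map_zero]
    have hfix : (j x : StE (val none)) ∈ fixedBy (StRep (val none)) (glInt (val none)) := by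
      intro h hh
      have e1 := hje h x
      have e2 : (PiTwo h1 h3 h6 h7).ρ (sing none h) (j x) =
        StRep (val none) (sing none h none) (j x) := rfl
      rw [e2, sing_apply_same, hx h hh] at e1
      exact e1.symm
    rw [(h3 _ _ piInf (loc2_inf h6)).1] at hfix
    exact hfix
  | some w =>
    apply comp_triv
    intro g x
    obtain ⟨j, hj, hje⟩ := hcomp
    apply hj
    rw [hje]
    have e2 : (PiTwo h1 h3 h6 h7).ρ (sing (some w) g) (j x) =
        StRep (val none) (sing (some w) g none) (j x) := rfl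
    rw [e2, sing_apply_ne (by simp), map_one]
    rfl

/-- The main theorem, from the statements of the tasks. -/
theorem goal_of_tasks (h1 : TaskIrred) (h2 : TaskSpecial) (h3 : TaskFix) (h4 : TaskUniv)
    (h6 : TaskGlob) (h7 : TaskGl) (h8 : TaskGA) (hF1 : TaskF1) (hCusp : TaskCusp)
    (hF2 : TaskF2) (hAvg : TaskAvg) (hAdm : TaskAdm) (hChar : TaskChar) (hHaar : TaskHaar) (hIso : TaskIso)
    (hQuot : TaskQuot) : Goal := by
  rintro ⟨l, hl⟩
  obtain ⟨π, hcusp, haut, hcomp⟩ :=
    exists_cuspidal h1 h2 h3 h4 h6 h7 h8 hF1 hCusp hAdm hQuot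
  have hlift : IsLifting π π := ⟨⟨haut, Or.inl hcusp⟩, fun v τ _ h => h⟩
  have c1 : IsComp π none (l (StInf h1 h3 h6 h7)) := hl π π haut hlift _ hcomp
  have c2 : IsComp PiTriv none (l (StInf h1 h3 h6 h7)) := by
    refine hl (PiTwo h1 h3 h6 h7) PiTriv
      (piTwo_aut h1 h2 h3 h4 h6 h7 h8 hF2 hAvg hAdm) (lift_two h1 h3 h6 h7 hChar hHaar) _ ?_
    refine ⟨LinearMap.id, fun _ _ h => h, fun g x => ?_⟩
    have e2 : (PiTwo h1 h3 h6 h7).ρ (sing none g) x =
        StRep (val none) (sing none g none) x := rfl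
    change _ = (PiTwo h1 h3 h6 h7).ρ (sing none g) x
    rw [e2, sing_apply_same]
    rfl
  have htriv := triv_of_comp c2
  obtain ⟨e, he⟩ := hIso π none _ _ hcomp c1
  have hst : ∀ (g : Gv none) (x : StE (val none)), StRep (val none) g x = x := by
    intro g x
    apply e.injective
    have := he g x
    rw [htriv] at this
    exact this
  have hmem : s0 (val none) ∈ fixedBy (StRep (val none)) (glInt (val none)) :=
    fun h _ => hst h _
  rw [(h3 _ _ piInf (loc2_inf h6)).1] at hmem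
  exact (h2 _ (val none) piInf (loc2_inf h6)).2 hmem

end N589LL
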