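import Pool.Agent.N589.LL.Loc

/-!
# Statements (Props) of the sub-tasks of project LL
-/

open scoped WithZero Polynomial MatrixGroups Topology
open IsDedekindDomain RestrictedProduct

noncomputable section

namespace N589LL

/-! ## Local representation theory (abstract valued field with residue field `F_2`) -/

/-- `ϖ` is a uniformizer and the residue field has two elements. -/
def Loc2 {F : Type} [Field F] (v : Valuation F ℤᵐ⁰) (ϖ : Fˣ) : Prop :=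
  v ϖ = WithZero.exp (-1) ∧ ∀ x, v x ≤ 1 → v x < 1 ∨ v (x - 1) < 1

/-- LL/01 -/
def TaskIrred : Prop := ∀ (F : Type) [Field F] (v : Valuation F ℤᵐ⁰) (ϖ : Fˣ), Loc2 v ϖ →
  Irred (StRep v)

/-- LL/02 -/
def TaskSpecial : Prop := ∀ (F : Type) [Field F] (v : Valuation F ℤᵐ⁰) (ϖ : Fˣ), Loc2 v ϖ →
  Special v (StRep v) ϖ (s0 v) ∧ s0 v ≠ 0

/-- LL/03 -/
def TaskFix : Prop := ∀ (F : Type) [Field F] (v : Valuation F ℤᵐ⁰) (ϖ : Fˣ), Loc2 v ϖ →
  fixedBy (StRep v) (glInt v) = ⊥ ∧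
    (∀ x : StE v, ∃ m, x ∈ fixedBy (StRep v) (Km v m)) ∧
    ∀ m, FiniteDimensional ℂ ↥(fixedBy (StRep v) (Km v m))

/-- LL/04: universal property of the special vector of the Steinberg representation. -/
def TaskUniv : Prop := ∀ (F : Type) [Field F] (v : Valuation F ℤᵐ⁰) (ϖ : Fˣ), Loc2 v ϖ →
  ∀ (E : Type) [AddCommGroup E] [Module ℂ E] (ρ : Representation ℂ (GL (Fin 2) F) E) (x0 : E),
    Special v ρ ϖ x0 →
    ∃ T : StE v →ₗ[ℂ] E, T (s0 v) = x0 ∧ ∀ g y, T (StRep v g y) = ρ g (T y)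

/-! ## Local fields -/

/-- The place `t = 0` of `F_2(t)`. -/
def p0 : HeightOneSpectrum A where
  asIdeal := Ideal.span {Polynomial.X}
  isPrime := (Ideal.span_singleton_prime Polynomial.X_ne_zero).2 Polynomial.prime_X
  ne_bot := by simp [Polynomial.X_ne_zero]

/-- LL/05 -/
def TaskLocTop : Prop := ∀ v : Place,
  (∃ x : K, pv v x = WithZero.exp (-1)) ∧
  (∀ (x : Kv v) (m : ℤ), ∃ y : K, val v (x - incl v y) ≤ WithZero.exp (-m)) ∧
  (∀ s : Set (Kv v), s ∈ 𝓝 (0 : Kv v) ↔ ∃ m : ℤ, {x | val v x ≤ WithZero.exp (-m)} ⊆ s) ∧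
  CompactSpace (Ov v)

/-- LL/06 -/
def TaskGlob : Prop :=
  (∀ x : Kv none, val none x ≤ 1 → val none x < 1 ∨ val none (x - 1) < 1) ∧
  (∀ x : Kv (some p0), val (some p0) x ≤ 1 → val (some p0) x < 1 ∨ val (some p0) (x - 1) < 1) ∧
  (∀ x : K, (∀ v, pv v x ≤ 1) → x = 0 ∨ x = 1) ∧
  (∀ x : K, x ≠ 0 → (∀ v : Place, v ≠ some p0 → pv v x = 1) → x = 1)

/-- LL/07 -/
def TaskGl : Prop := ∀ v : Place,
  (∀ m, IsOpen (Km (val v) m : Set (Gv v))) ∧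
  (∀ H : Subgroup (Gv v), IsOpen (H : Set (Gv v)) → ∃ m, Km (val v) m ≤ H) ∧
  (∀ H : Subgroup (Gv v), IsOpen (H : Set (Gv v)) → H.relIndex (Cv v) ≠ 0) ∧
  IsOpen (Cv v : Set (Gv v)) ∧ IsOpen (Iw (val v) : Set (Gv v))

/-- The maximal compact subgroup `∏_{v ≠ ∞} GL_2(O_v)` of the finite adelic group. -/
def Cfin : Subgroup GA where
  carrier := {g | g none = 1 ∧ ∀ v, g v ∈ Cv v}
  mul_mem' := by
    rintro a b ⟨ha, ha'⟩ ⟨hb, hb'⟩
    refine ⟨by rw [RestrictedProduct.mul_apply, ha, hb, one_mul], fun v => ?_⟩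
    rw [RestrictedProduct.mul_apply]; exact mul_mem (ha' v) (hb' v)
  one_mem' := ⟨rfl, fun v => by rw [RestrictedProduct.one_apply]; exact one_mem _⟩
  inv_mem' := by
    rintro a ⟨ha, ha'⟩
    refine ⟨by rw [RestrictedProduct.inv_apply, ha, inv_one], fun v => ?_⟩
    rw [RestrictedProduct.inv_apply]; exact inv_mem (ha' v)

/-- LL/08 -/
def TaskGA : Prop :=
  IsTopologicalGroup GA ∧
  (∀ v, Continuous (sing v)) ∧
  (∀ U : Subgroup GA, IsOpen (U : Set GA) → U.relIndex Cfin ≠ 0) ∧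
  (∀ H : (v : Place) → Subgroup (Gv v), (∀ v, IsOpen (H v : Set (Gv v))) → (∀ v, H v ≤ Cv v) →
    {v | H v ≠ Cv v}.Finite → IsOpen {g : GA | ∀ v, g v ∈ H v})

/-- LL/09: strong approximation for the adeles of `F_2(t)`. -/
def TaskApprox : Prop :=
  (∀ x : Adele, ∃ y : K, (∀ v, val v (x v - incl v y) ≤ 1) ∧ val none (x none - incl none y) < 1) ∧
  (∀ 𝔬 : AddSubgroup Adele, IsOpen (𝔬 : Set Adele) →
    Finite (Adele ⧸ (𝔬 ⊔ diagK.range.toAddSubgroup)))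

/-- LL/10: the class number of `GL_2` over `F_2(t)` is one. -/
def TaskClass : Prop := ∀ g : GA, ∃ γ : GL (Fin 2) K, ∀ v : HeightOneSpectrum A,
  (diag γ * g) (some v) ∈ Cv (some v)

/-- `t` as a unit of `K_∞`. -/
def tInf : (Kv none)ˣ := Units.mk0 (incl none RatFunc.X) (by
  simpa using (map_ne_zero (incl none)).2 RatFunc.X_ne_zero)

/-- The uniformizer `1/t` of `K_∞`. -/
def piInf : (Kv none)ˣ := tInf⁻¹

/-- The natural map `GL_2(F_2[t]) → GL_2(K_∞)`. -/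
def glA : GL (Fin 2) A →* Gv none := (glIncl none).comp (Matrix.GeneralLinearGroup.map
  (algebraMap A K))

/-- LL/11: the quotient of the tree of `GL_2(K_∞)` by `GL_2(F_2[t])` is a half line. -/
def TaskTree : Prop :=
  (∀ g : Gv none, ∃ (γ : GL (Fin 2) A) (m : ℕ) (k : Gv none) (z : (Kv none)ˣ), k ∈ Cv none ∧
    g = glA γ * dg (tInf ^ m) 1 * k * sca z) ∧
  (∀ (γ : GL (Fin 2) A) (m m' : ℕ) (k : Gv none) (z : (Kv none)ˣ), k ∈ Cv none →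
    dg (tInf ^ m') 1 = glA γ * dg (tInf ^ m) 1 * k * sca z → m' = m)

/-- The representation of `GL_2(K_∞)` on the functions on `GL_2(A_K)` by right translation. -/
abbrev rhoInf : Representation ℂ (Gv none) (GA → ℂ) := (Rt GA).comp (sing none)

/-- LL/12: an explicit cusp form. -/
def TaskF1 : Prop := ∃ f : GA → ℂ, f 1 = 1 ∧
  (∀ (γ : GL (Fin 2) K) (g : GA), f (diag γ * g) = f g) ∧
  (∃ U : Subgroup GA, IsOpen (U : Set GA) ∧ ∀ u ∈ U, ∀ g, f (g * u) = f g) ∧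
  Special (val none) rhoInf piInf f ∧
  (∀ g : GA, ∃ y : Adele, ∀ x : Adele, f (nA (x + y) * g) = - f (nA x * g))

/-- LL/13 -/
def TaskCusp : Prop := ∀ f : GA → ℂ,
  (∀ (γ : GL (Fin 2) K) (g : GA), f (diag γ * g) = f g) →
  (∃ U : Subgroup GA, IsOpen (U : Set GA) ∧ ∀ u ∈ U, ∀ g, f (g * u) = f g) →
  (∀ g : GA, ∃ y : Adele, ∀ x : Adele, f (nA (x + y) * g) = - f (nA x * g)) →
  ∀ F ∈ cyc (Rt GA) f, IsCuspidal F

/-- LL/14: existence and uniqueness of the harmonic cochain of weight one. -/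
def TaskF2 : Prop :=
  (∃ f : GA → ℂ,
    (∀ (γ : GL (Fin 2) K) (g : GA), f (diag γ * g) = f g) ∧
    (∀ c ∈ Cfin, ∀ g, f (g * c) = f g) ∧
    (∀ g ∈ Iw (val none), rhoInf g f = f) ∧
    (∀ z, rhoInf (sca z) f = f) ∧
    rhoInf (eta piInf) f = - f ∧
    (∀ g, f g + (rhoInf wm f) g + (rhoInf (lwr 1) f) g = 3)) ∧
  (∀ f : GA → ℂ,
    (∀ (γ : GL (Fin 2) K) (g : GA), f (diag γ * g) = f g) →
    (∀ c ∈ Cfin, ∀ g, f (g * c) = f g) →
    Special (val none) rhoInf piInf f → f = 0)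

/-! ## Abstract representation theory -/

/-- LL/15: averaging over a (compact) subgroup. -/
def TaskAvg : Prop := ∀ (G : Type) [Group G] [TopologicalSpace G] [IsTopologicalGroup G]
  (C : Subgroup G), (∀ U : Subgroup G, IsOpen (U : Set G) → U.relIndex C ≠ 0) →
  ∀ (E : Type) [AddCommGroup E] [Module ℂ E] (ρ : Representation ℂ G E),
    ∃ P : E →ₗ[ℂ] E, ∀ x, (∃ U : Subgroup G, IsOpen (U : Set G) ∧ x ∈ fixedBy ρ U) →
      P x ∈ Submodule.span ℂ {y | ∃ c ∈ C, y = ρ c x} ∧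
      P x ∈ fixedBy ρ C ∧
      (x ∈ fixedBy ρ C → P x = x) ∧
      ∀ g, (∀ c ∈ C, g * c = c * g) → P (ρ g x) = ρ g (P x)

/-- A subspace `W` (usually a subrepresentation) is admissible. -/
def AdmSub {G : Type} [Group G] [TopologicalSpace G] {E : Type} [AddCommGroup E] [Module ℂ E]
    (ρ : Representation ℂ G E) (W : Submodule ℂ E) : Prop :=
  (∀ x ∈ W, ∃ U : Subgroup G, IsOpen (U : Set G) ∧ x ∈ fixedBy ρ U) ∧
  ∀ H : Subgroup G, IsOpen (H : Set G) → FiniteDimensional ℂ ↥(W ⊓ fixedBy ρ H)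

/-- LL/16: sums, images and extensions of admissible representations. -/
def TaskAdm : Prop := ∀ (G : Type) [Group G] [TopologicalSpace G] [IsTopologicalGroup G]
  (C : Subgroup G), IsOpen (C : Set G) →
    (∀ U : Subgroup G, IsOpen (U : Set G) → U.relIndex C ≠ 0) →
  ∀ (E : Type) [AddCommGroup E] [Module ℂ E] (ρ : Representation ℂ G E),
    (∀ W₁ W₂ : Submodule ℂ E, (∀ g, ∀ x ∈ W₁, ρ g x ∈ W₁) → (∀ g, ∀ x ∈ W₂, ρ g x ∈ W₂) →
      AdmSub ρ W₁ → AdmSub ρ W₂ → AdmSub ρ (W₁ ⊔ W₂)) ∧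
    (∀ (E' : Type) [AddCommGroup E'] [Module ℂ E'] (ρ' : Representation ℂ G E')
      (T : E →ₗ[ℂ] E'), (∀ g x, T (ρ g x) = ρ' g (T x)) →
      ∀ W : Submodule ℂ E, (∀ g, ∀ x ∈ W, ρ g x ∈ W) → AdmSub ρ W → AdmSub ρ' (W.map T)) ∧
    (∀ (E' : Type) [AddCommGroup E'] [Module ℂ E'] (ρ' : Representation ℂ G E')
      (T : E →ₗ[ℂ] E'), (∀ g x, T (ρ g x) = ρ' g (T x)) →
      ∀ W : Submodule ℂ E, (∀ x ∈ W, ∃ U : Subgroup G, IsOpen (U : Set G) ∧ x ∈ fixedBy ρ U) →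
        AdmSub ρ (W ⊓ LinearMap.ker T) → AdmSub ρ' (W.map T) → AdmSub ρ W)

/-- LL/17: the Hecke characters `|.|^{1/2}` and `|.|^{-1/2}`. -/
def TaskChar : Prop := ∃ c₁ c₂ : HeckeChar, c₂.σ ≤ c₁.σ ∧
  ∀ (v : Place) (a d : (Kv v)ˣ),
    ((c₂.χ (singI v a) : ℂˣ) : ℂ) * ((c₁.χ (singI v d) : ℂˣ) : ℂ) *
      ((nrm v a / nrm v d) ^ (1 / 2 : ℝ) : ℝ) = 1

/-- LL/18: the local component is unique up to isomorphism. -/
def TaskIso : Prop := ∀ (π : IrrRep GA) (v : Place) (τ τ' : IrrRep (Gv v)),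
  IsComp π v τ → IsComp π v τ' →
    ∃ e : τ.E ≃ₗ[ℂ] τ'.E, ∀ g x, e (τ.ρ g x) = τ'.ρ g (e x)

/-- LL/19: a nonzero cyclic smooth representation has an irreducible quotient. -/
def TaskQuot : Prop := ∀ (f : GA → ℂ), f ≠ 0 →
  (∃ U : Subgroup GA, IsOpen (U : Set GA) ∧ ∀ u ∈ U, ∀ g, f (g * u) = f g) →
  ∃ (hV : ∀ g, ∀ F ∈ cyc (Rt GA) f, Rt GA g F ∈ cyc (Rt GA) f) (π : IrrRep GA)
    (p : cyc (Rt GA) f →ₗ[ℂ] π.E), Function.Surjective p ∧
      (∀ (g : GA) (F : cyc (Rt GA) f), p ⟨Rt GA g F, hV g F F.2⟩ = π.ρ g (p F)) ∧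
      ∃ h : f ∈ cyc (Rt GA) f, p ⟨f, h⟩ ≠ 0

end N589LL
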