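import Pool.Agent.N589.LL.Tasks

/-!
# Further statements of project LL
-/

open scoped WithZero Polynomial MatrixGroups Topology
open IsDedekindDomain RestrictedProduct

noncomputable section

namespace N589LL

/-- LL/20: the invariant functional on the functions `φ` on `GL_2(K_v)` with
`φ((a, b; 0, d) g) = |a/d| φ(g)`. -/
def TaskHaar : Prop := ∀ v : Place, ∃ Λ : (Gv v → ℂ) →ₗ[ℂ] ℂ,
  (∀ φ : Gv v → ℂ,
    (∃ U : Subgroup (Gv v), IsOpen (U : Set (Gv v)) ∧ ∀ u ∈ U, ∀ g, φ (g * u) = φ g) →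
    (∀ (a d : (Kv v)ˣ) (b : Kv v) (g : Gv v),
      φ (bor a d b * g) = ((nrm v a / nrm v d : ℝ) : ℂ) * φ g) →
    ∀ h : Gv v, Λ (Rt (Gv v) h φ) = Λ φ) ∧
  ∃ φ : Gv v → ℂ,
    (∃ U : Subgroup (Gv v), IsOpen (U : Set (Gv v)) ∧ ∀ u ∈ U, ∀ g, φ (g * u) = φ g) ∧
    (∀ (a d : (Kv v)ˣ) (b : Kv v) (g : Gv v),
      φ (bor a d b * g) = ((nrm v a / nrm v d : ℝ) : ℂ) * φ g) ∧ Λ φ ≠ 0

end N589LL
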